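import Mathlib
import Pool.Agent.Helper9.NS
import Pool.Agent.Helper15.GT.RDefs
import Pool.Agent.Helper21.TB.Final

/-!
# TZ: genus one fibrations with trivial Jacobian fibration, definitions

The Jacobian fibration is the product of the base and the elliptic curve `y ^ 2 = x ^ 3 + a x + b` over
`k`. Points of this curve with coordinates in an extension field `K` of `k`, and their reductions at the rational
places of `K`.
-/

set_option linter.unusedSectionVars false

namespace Pool.Agent.Helper21.TZ

open VC VF Function Polynomial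
open Pool.Agent.Helper21.TO Pool.Agent.Helper21.TB Pool.Agent.Helper15.GT
open Pool.Agent.Helper51.VB (Ell KPt BP rs OJ)
open Pool.Agent.Helper51.VN (OnE Harm)

universe u

/-- The image of a point under a homomorphism of fields. -/
noncomputable def mapP {k F K : Type*} [Field k] [Field F] [Algebra k F] [Field K] [Algebra k K]
    (f : F →ₐ[k] K) {a b : F} {a' b' : K} (ha : f a = a') (hb : f b = b') : EPt a b → EPt a' b'
  | .zero => 0
  | .some x y h => EPt.mk (f x) (f y) (by subst ha hb; exact nonsingular_map f h)

/-- The points with coordinates in `K` of the curve `y ^ 2 = x ^ 3 + a x + b` over `k`. -/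
abbrev EK (k K : Type*) [Field k] [Field K] [Algebra k K] (a b : k) : Type _ :=
  EPt (algebraMap k K a) (algebraMap k K b)

section maps

variable {k F K : Type u} [Field k] [Field F] [Algebra k F] [Field K] [Algebra k K]

lemma mapP_add (f : F →ₐ[k] K) {a b : F} {a' b' : K} (ha : f a = a') (hb : f b = b') (P Q : EPt a b) :
    mapP f ha hb (P + Q) = mapP f ha hb P + mapP f ha hb Q := by
  subst ha hb
  have e : ∀ P : EPt a b, mapP f rfl rfl P = mapPt f P := by
    intro P
    rcases P with _ | ⟨x, y, h⟩ <;> rfl
  rw [e, e, e, mapPt_add]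

/-- The image of a point of the constant curve, a homomorphism of groups. -/
noncomputable def mapC (f : F →ₐ[k] K) (a b : k) : EK k F a b →+ EK k K a b where
  toFun := mapP f (f.commutes a) (f.commutes b)
  map_zero' := rfl
  map_add' := mapP_add f _ _

lemma mapC_mk (f : F →ₐ[k] K) {a b : k} (x y : F)
    (h : (sw (algebraMap k F a) (algebraMap k F b)).toAffine.Nonsingular x y)
    (h' : (sw (algebraMap k K a) (algebraMap k K b)).toAffine.Nonsingular (f x) (f y)) :
    mapC f a b (EPt.mk x y h) = EPt.mk (f x) (f y) h' := rfl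

lemma mapC_comp {K' : Type u} [Field K'] [Algebra k K'] (f : F →ₐ[k] K) (g : K →ₐ[k] K') {a b : k}
    (P : EK k F a b) : mapC g a b (mapC f a b P) = mapC (g.comp f) a b P := by
  rcases P with _ | ⟨x, y, h⟩ <;> rfl

end maps

/-- The point `Q` is the reduction of the point `P` at the rational place `w`. -/
def RedC {k K : Type u} [Field k] [Field K] [Algebra k K] (w : RPl k K) {a b : k} :
    EK k K a b → EPt a b → Prop
  | .zero, Q => Q = 0
  | .some x _ _, .zero => x ∉ w.ring
  | .some x y _, .some X Y _ => Rs w x X ∧ Rs w y Y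

/-- A place of a function field of one variable as a rational place. -/
def rpl {k K : Type u} [Field k] [IsAlgClosed k] [CharZero k] [Field K] [Algebra k K]
    (hK : IsFunctionField k K) (w : Place k K) : RPl k K where
  ring := w.ring
  alg c := w.algebraMap_mem c
  res _ hz := exists_res hK hz

lemma rpl_pl {k F K : Type u} [Field k] [IsAlgClosed k] [CharZero k] [Field F] [Algebra k F] [Field K]
    [Algebra k K] (hK : IsFunctionField k K) (j : K →ₐ[k] F) (w : RPl k F) :
    rpl hK (w.pl hK j) = w.comap j := by
  ext z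
  rfl

/-- The elliptic curve has the constant equation `y ^ 2 = x ^ 3 + a x + b`, all places are nice. -/
structure Cst {k F : Type u} [Field k] [Field F] [Algebra k F] (D : Ell k F) (a b : k) : Prop where
  disc : 4 * a ^ 3 + 27 * b ^ 2 ≠ 0
  hal : D.al = algebraMap k F (-a / 3)
  hbe : D.be = algebraMap k F (-b / 2)
  N0 : D.N = 0
  E0 : ∀ P, D.E P = 0
  nice : ∀ P, D.Nice P
  ha : ∀ P, -3 * D.a₀ P = a
  hb : ∀ P, -2 * D.b₀ P = b

lemma exists_cst {k F : Type u} [Field k] [IsAlgClosed k] [CharZero k] [Field F] [Algebra k F]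
    (hF : IsFunctionField k F) {a b : k} (hΔ : 4 * a ^ 3 + 27 * b ^ 2 ≠ 0) :
    ∃ D : Ell k F, Cst D a b := by
  have hF0 : CharZero F := charZero_of_injective_algebraMap (algebraMap k F).injective
  have h1 : (-b / 2) ^ 2 - (-a / 3) ^ 3 ≠ 0 := by
    intro h
    apply hΔ
    linear_combination 108 * h
  have h2 : (algebraMap k F (-b / 2)) ^ 2 - (algebraMap k F (-a / 3)) ^ 3 =
      algebraMap k F ((-b / 2) ^ 2 - (-a / 3) ^ 3) := by
    rw [map_sub, map_pow, map_pow]
  have hc : ∀ (P : Place k F) (c : k), c ≠ 0 → ord P.ring (algebraMap k F c) = 0 := by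
    intro P c hc
    exact FF.ord_algebraMap hF P hc
  obtain ⟨t, htr, -⟩ := id hF
  obtain ⟨P0, -⟩ := FF.exists_place htr
  let D : Ell k F :=
    { hL := hF
      al := algebraMap k F (-a / 3)
      be := algebraMap k F (-b / 2)
      hD := by
        rw [h2]
        exact (_root_.map_ne_zero _).mpr h1
      E := 0
      N := 0
      deg := by simp
      h4 := fun P h => by
        rw [Finsupp.zero_apply, mul_zero, add_zero, hc P _ (fun h0 => h (by rw [h0, map_zero]))]
      h6 := fun P h => by
        rw [Finsupp.zero_apply, mul_zero, add_zero, hc P _ (fun h0 => h (by rw [h0, map_zero]))]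
      R := ∅
      nice := fun P _ _ _ _ => rfl
      e1 := P0
      bad0 := fun h => absurd h (by norm_num) }
  refine ⟨D, hΔ, rfl, rfl, rfl, fun P => rfl, fun P => ⟨P.algebraMap_mem _, P.algebraMap_mem _, ?_,
    Finset.notMem_empty _⟩, fun P => ?_, fun P => ?_⟩
  · change ord P.ring ((algebraMap k F (-b / 2)) ^ 2 - (algebraMap k F (-a / 3)) ^ 3) = 0
    rw [h2]
    exact hc P _ h1
  · have e : D.a₀ P = -a / 3 := Pool.Agent.Helper51.VB.rs_eq (isRes_const (-a / 3))
    rw [e]
    ring
  · have e : D.b₀ P = -b / 2 := Pool.Agent.Helper51.VB.rs_eq (isRes_const (-b / 2))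
    rw [e]
    ring

end Pool.Agent.Helper21.TZ
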