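import Mathlib
import Pool.Agent.Helper9.NS
import Pool.Agent.Helper21.TZ.Defs
import Pool.Agent.Helper15.GT.ExtP
import Pool.Agent.Helper21.TO.TwOf
import Pool.Agent.Helper21.TO.ResL

/-!
# Block TZ-DESC: descent of a harmonic function to the base
`exists_avg T.hF T.hL hl` (TB/Hrm.lean) gives `μ` with `μ P = A` if `l v = A` for all `v` with `VQ.res T.hF T.hL v = P`. Let `w : RPl k F₀`,
`P = w.pl T.hF κ`. There is a rational place `w'` of `Ω` with `w'.comap f = w`: `exists_rpl` (Helper15/GT/ExtP.lean) for the subalgebra `f (w.ring)` and the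
residue map; the inclusion `w.ring ≤ (w'.comap f).ring` of valuation rings whose residues agree is an equality (if `z ∉ w.ring` then `z⁻¹` is
a nonunit of `w`, `Rs w z⁻¹ 0`, so `Rs w' (f z⁻¹) 0` and `f z ∉ w'.ring`). Let `v` be any place of `L` with `VQ.res v = P`; `v' = w'.pl T.hL ι` is also over `P`
(`f ∘ κ = T.j`). The Galois group of `L` over `F` (`exists_res_subgroup`, see `exists_fb` in TB/Final.lean: the restrictions `τ` of the `σ ∈ T.G`) is
transitive on the places over `P`: `traB` in TB/Tra.lean (copy its proof for a finite group `H` of automorphisms of `L` with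
fixed field `F`; or apply it to `exists_fb` of any `D`; here `D` is not given, so copying is easier). So `v = v'` moved by `τ`, and
`v = (w'.comap σ).pl T.hL ι` for some `σ ∈ T.G` (or its inverse); `(w'.comap σ).comap f = w'.comap f` as `σ ∘ f = f` (`hfix`, `RPl.comap_comap`). So
`l v = g w` for all `v` over `P`.
-/

set_option linter.unusedSectionVars false

namespace Pool.Agent.Helper21.TZ

open VC VF Function Polynomial
open Pool.Agent.Helper21.TO Pool.Agent.Helper21.TB Pool.Agent.Helper15.GT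
open Pool.Agent.Helper51.VB (Ell KPt BP rs OJ)
open Pool.Agent.Helper51.VN (OnE Harm)

universe u

variable {k : Type u} [Field k] [IsAlgClosed k] [CharZero k] {F L Ω : Type u} [Field F]
  [Algebra k F] [Field L] [Algebra k L] [Algebra F L] [IsScalarTower k F L] [Field Ω]
  [Algebra k Ω] [Algebra L Ω] [IsScalarTower k L Ω]

private theorem exists_extDesc {F₀ : Type u} [Field F₀] [Algebra k F₀] (f : F₀ →ₐ[k] Ω)
    (w : RPl k F₀) : ∃ w' : RPl k Ω, w'.comap f = w := by
  classical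
  let B : Subalgebra k F₀ :=
    { w.ring.toSubring with
      algebraMap_mem' := fun c => w.alg c }
  have hB : ∀ z : B, (z : F₀) ∈ w.ring := fun z => z.2
  choose r hr using fun z : B => exists_rs (hB z)
  let θ₀ : B →ₐ[k] k :=
    { toFun := r
      map_one' := (hr 1).unique rs_one
      map_mul' := fun x y => (hr (x * y)).unique ((hr x).mul (hr y))
      map_zero' := (hr 0).unique rs_zero
      map_add' := fun x y => (hr (x + y)).unique ((hr x).add (hr y))
      commutes' := fun c => (hr (algebraMap k B c)).unique (rs_const c) }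
  let e := B.equivMapOfInjective f f.toRingHom.injective
  obtain ⟨w', hw'⟩ := exists_rpl (B.map f) (θ₀.comp (e.symm : B.map f →ₐ[k] B))
  have h1 : ∀ (z : F₀) (c : k), Rs w z c → Rs w' (f z) c := by
    intro z c hz
    have h2 := hw' (e ⟨z, hz.mem⟩)
    have h3 : (θ₀.comp (e.symm : B.map f →ₐ[k] B)) (e ⟨z, hz.mem⟩) = r ⟨z, hz.mem⟩ := by
      change θ₀ (e.symm (e ⟨z, hz.mem⟩)) = _
      rw [AlgEquiv.symm_apply_apply]
      rfl
    rw [h3] at h2
    have h4 : r ⟨z, hz.mem⟩ = c := (hr _).unique hz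
    rw [h4] at h2
    exact h2
  refine ⟨w', ?_⟩
  ext z
  constructor
  · intro hz
    by_contra hcon
    have h2 : Rs w z⁻¹ 0 := by
      rw [rs_zero_iff, ValuationSubring.mem_nonunits_iff_or, inv_inv]
      exact Or.inr hcon
    have hz0 : z ≠ 0 := by
      rintro rfl
      exact hcon w.ring.zero_mem
    have h3 := h1 _ _ h2
    obtain ⟨d, hd⟩ := exists_rs (w := w') (x := f z) hz
    have h4 := h3.mul hd
    rw [← map_mul, inv_mul_cancel₀ hz0, map_one, zero_mul] at h4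
    exact one_ne_zero (rs_one.unique h4)
  · intro hz
    obtain ⟨c, hc⟩ := exists_rs hz
    exact (h1 z c hc).mem

private theorem tra_desc (hF : IsFunctionField k F) (hL : IsFunctionField k L)
    (H : Subgroup (L ≃ₐ[k] L)) (hfin : Finite H)
    (hfixed : ∀ z : L, (∀ τ ∈ H, τ z = z) → z ∈ Set.range (algebraMap F L))
    {P : Place k F} {v v' : Place k L}
    (h : Ab P v) (h' : Ab P v') : ∃ τ ∈ H, Over v' ((τ : L ≃ₐ[k] L) : L →ₐ[k] L) v := by
  classical
  by_contra hcon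
  push Not at hcon
  have hFt : Fintype H := Fintype.ofFinite _
  let V : H → Place k L := fun τ => Place.comap hL hL ((τ : L ≃ₐ[k] L) : L →ₐ[k] L) v
  let V' : H → Place k L := fun τ => Place.comap hL hL ((τ : L ≃ₐ[k] L) : L →ₐ[k] L) v'
  have hV : ∀ τ, Over (V τ) ((τ : L ≃ₐ[k] L) : L →ₐ[k] L) v := fun τ => over_comap _ _ _ _
  have hV' : ∀ τ, Over (V' τ) ((τ : L ≃ₐ[k] L) : L →ₐ[k] L) v' := fun τ => over_comap _ _ _ _
  have hne : ∀ ρ τ, V' ρ ≠ V τ := by
    intro ρ τ h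
    refine hcon _ (τ * ρ⁻¹).2 ?_
    intro z c hz
    have h1 : IsRes (V' ρ) ((ρ : L ≃ₐ[k] L).symm z) c := by
      rw [← (hV' ρ).isRes_iff hL]
      have e : (((ρ : L ≃ₐ[k] L) : L →ₐ[k] L)) ((ρ : L ≃ₐ[k] L).symm z) = z :=
        (ρ : L ≃ₐ[k] L).apply_symm_apply z
      rwa [e]
    rw [h] at h1
    exact hV τ _ _ h1
  obtain ⟨y, hy⟩ := wa hL (Set.range V ∪ Set.range V')
    ((Set.finite_range V).union (Set.finite_range V')) (fun _ => 1) (fun _ => one_ne_zero)
    (fun w => if w ∈ Set.range V then 1 else 0)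
  have h1 : ∀ τ : H, IsRes v ((τ : L ≃ₐ[k] L) y) 1 := by
    intro τ
    have h := hy (V τ) (Or.inl ⟨τ, rfl⟩)
    have e : (if V τ ∈ Set.range V then (1 : k) else 0) = 1 := if_pos ⟨τ, rfl⟩
    rw [one_mul, e] at h
    exact hV τ _ _ h
  have h2 : ∀ τ : H, IsRes v' ((τ : L ≃ₐ[k] L) y) 0 := by
    intro τ
    have h := hy (V' τ) (Or.inr ⟨τ, rfl⟩)
    have e : (if V' τ ∈ Set.range V then (1 : k) else 0) = 0 := by
      apply if_neg
      rintro ⟨ρ, hρ⟩
      exact hne τ ρ hρ.symm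
    rw [one_mul, e] at h
    exact hV' τ _ _ h
  have h3 : IsRes v (∏ τ : H, (τ : L ≃ₐ[k] L) y) 1 := by
    have := isRes_prodB (v := v) Finset.univ (fun τ : H => (τ : L ≃ₐ[k] L) y) (fun _ => 1)
      (fun τ _ => h1 τ)
    rwa [Finset.prod_const_one] at this
  have h4 : IsRes v' (∏ τ : H, (τ : L ≃ₐ[k] L) y) 0 := by
    have := isRes_prodB (v := v') Finset.univ (fun τ : H => (τ : L ≃ₐ[k] L) y) (fun _ => 0)
      (fun τ _ => h2 τ)
    have e : (∏ _τ : H, (0 : k)) = 0 := Finset.prod_eq_zero (Finset.mem_univ (1 : H)) rfl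
    rwa [e] at this
  have h5 : (∏ τ : H, (τ : L ≃ₐ[k] L) y) ∈ Set.range (algebraMap F L) := by
    apply hfixed
    intro σ hσ
    rw [map_prod]
    exact Fintype.prod_equiv (Equiv.mulLeft (⟨σ, hσ⟩ : H)) _ _ (fun τ => rfl)
  obtain ⟨f, hf⟩ := h5
  rw [← hf] at h3 h4
  have h6 : IsRes P f 1 := (h.isRes_iff hF).mp h3
  have h7 : IsRes P f 0 := (h'.isRes_iff hF).mp h4
  exact one_ne_zero (h6.unique h7)

theorem exists_desc (T : Fibration k F L Ω) {F₀ : Type u} [Field F₀] [Algebra k F₀]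
    (κ : F →ₐ[k] F₀) (f : F₀ →ₐ[k] Ω) (hκ : f.comp κ = T.j)
    (hfix : ∀ σ ∈ T.G, ∀ z, σ (f z) = f z) {l : Place k L → k} (hl : Harm T.hL l)
    (g : RPl k F₀ → k)
    (h : ∀ w : RPl k Ω, l (w.pl T.hL (IsScalarTower.toAlgHom k L Ω)) = g (w.comap f)) :
    ∃ μ : Place k F → k, Harm T.hF μ ∧ ∀ w : RPl k F₀, g w = μ (w.pl T.hF κ) := by
  classical
  obtain ⟨μ, hμ, hμ2⟩ := exists_avg T.hF T.hL hl
  refine ⟨μ, hμ, fun w => (hμ2 (w.pl T.hF κ) (g w) fun v hv => ?_).symm⟩
  obtain ⟨w', hw'⟩ := exists_extDesc f w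
  obtain ⟨H, hfin, hH1, hH2⟩ := exists_res_subgroup T.G T.finG T.stable
  have hab : Ab (w.pl T.hF κ) v := by
    have h1 := over_res T.hF T.hL v
    rw [hv] at h1
    exact h1
  have hab' : Ab (w.pl T.hF κ) (w'.pl T.hL (IsScalarTower.toAlgHom k L Ω)) := by
    intro z c hz
    rw [isRes_pl] at hz ⊢
    rw [← hw', rs_comap] at hz
    have e : f (κ z) = T.j z := DFunLike.congr_fun hκ z
    rw [e] at hz
    exact hz
  obtain ⟨τ, hτ, hov⟩ := tra_desc T.hF T.hL H hfin (fun z hz => T.fixed z fun σ hσ => by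
    obtain ⟨τ, hτ, h1⟩ := hH2 σ hσ
    rw [h1, hz τ hτ]) hab hab'
  obtain ⟨σ, hσ, hστ⟩ := hH1 τ⁻¹ (H.inv_mem hτ)
  have key : (w'.comap (σ : Ω →ₐ[k] Ω)).pl T.hL (IsScalarTower.toAlgHom k L Ω) = v := by
    apply FF.place_eq_of_le T.hL
    intro z hz
    obtain ⟨c, hc⟩ := exists_res T.hL hz
    rw [isRes_pl, rs_comap] at hc
    have e : (σ : Ω →ₐ[k] Ω) (IsScalarTower.toAlgHom k L Ω z) =
        IsScalarTower.toAlgHom k L Ω (τ⁻¹ z) := hστ z
    rw [e, ← isRes_pl T.hL] at hc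
    have h1 := hov _ _ hc
    have e2 : ((τ : L ≃ₐ[k] L) : L →ₐ[k] L) (τ⁻¹ z) = z := τ.apply_symm_apply z
    rw [e2] at h1
    exact h1.mem
  rw [← key, h]
  congr 1
  rw [RPl.comap_comap]
  have e : ((σ : Ω →ₐ[k] Ω)).comp f = f := AlgHom.ext fun z => hfix σ hσ z
  rw [e, hw']

end Pool.Agent.Helper21.TZ
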