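import Mathlib
import Pool.Agent.Helper9.NS
import Pool.Agent.Helper21.TZ.Defs
import Pool.Agent.Helper21.TB.GoodHomB

/-!
# Block TZ-GEN: the centers of general rational places are good points
`g = ev C.p C.q ι0 x y`, `g i0 ≠ 0`. `G0` consists of `x`, `y`, `(g i0)⁻¹`, `ι0 t` for some `t ∈ L` transcendental over `k`, the images under `ι0` of
the coefficients of the `C.p i`, `C.q i` (finite: `finite_coeffs88` in TB/GoodCurveB.lean), and for each `v ∈ T` the inverse of `ι0 (f v)`, where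
`f v` is a uniformizer at `v` (`FF.exists_uniformizer`). Let `w` be a rational place with `G0 ⊆ w.ring` and `R'` the `k`-subalgebra `w.ring` of
`Ω` (`w.alg`), `χ : R' →ₐ[k] k` the residue (`exists_reshom_rpl` in Helper15/GT/Move.lean). `good_of_homB` (TB/GoodHomB.lean) applies (`χ (g i0) ≠ 0` as
`(g i0)⁻¹ ∈ w.ring`; `ι0 C.a = algebraMap k Ω a` is in `R'` and has the residue `a`, so `At = a`, `Bt = b`) and gives a place `v` with `IsRes v z (χ (ι0 z))`
for all `z` with `ι0 z ∈ w.ring`; so `v = w.pl C.hL ι0` (`FF.place_eq_of_le`: `z ∈ (w.pl C.hL ι0).ring` iff `ι0 z ∈ w.ring`); and `m`, `X = χ x`, `Y = χ y`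
(if the statement of `good_of_homB` does not say so: `m.evt X0 Y0 = χ (g i)` is not enough, so copy its proof or generalize it
in this file to give `X0 = χ ⟨x, hx⟩`, `Y0 = χ ⟨y, hy⟩`; its last line is `⟨v, m, χ ⟨x, hx⟩, χ ⟨y, hy⟩, hns, ..⟩`). `v ∉ T`: `(f v)⁻¹` is not regular at `v`.
`Vl w g (m.evt X Y)`: `r = 1`, `Rs w (g i) (χ (g i))`.
-/

set_option linter.unusedSectionVars false

namespace Pool.Agent.Helper21.TZ

open VC VF Function Polynomial
open Pool.Agent.Helper21.TO Pool.Agent.Helper21.TB Pool.Agent.Helper15.GT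
open Pool.Agent.Helper51.VB (Ell KPt BP rs OJ)
open Pool.Agent.Helper51.VN (OnE Harm)

universe u

variable {k : Type u} [Field k] [IsAlgClosed k] [CharZero k] {L Ω : Type u} [Field L] [Algebra k L]
  [Field Ω] [Algebra k Ω]

omit [IsAlgClosed k] [CharZero k] in
private lemma rs_pow14 {w : RPl k Ω} {x : Ω} {c : k} (h : Rs w x c) (n : ℕ) : Rs w (x ^ n) (c ^ n) := by
  induction n with
  | zero => rw [pow_zero, pow_zero]; exact rs_one
  | succ n ih => rw [pow_succ, pow_succ]; exact ih.mul h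

omit [IsAlgClosed k] [CharZero k] in
private lemma finite_coeffs14 (ι0 : L →ₐ[k] Ω) {M : ℕ}
    (p : Fin M → L[X]) : (Set.range fun a : Fin M × ℕ => ι0 ((p a.1).coeff a.2)).Finite := by
  have h1 : (insert (0 : Ω) (⋃ i : Fin M, (fun n => ι0 ((p i).coeff n)) ''
      ((p i).support : Set ℕ))).Finite :=
    (Set.finite_iUnion fun i => ((p i).support.finite_toSet).image _).insert 0
  refine h1.subset ?_
  rintro _ ⟨⟨i, n⟩, rfl⟩
  by_cases hn : (p i).coeff n = 0
  · left
    simp only [hn, map_zero]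
  · right
    exact Set.mem_iUnion.mpr ⟨i, n, Polynomial.mem_support_iff.mpr hn, rfl⟩

omit [IsAlgClosed k] [CharZero k] in
/-- The reduction of a polynomial with regular coefficients. -/
private lemma red_poly14 (w : RPl k Ω) (ι0 : L →ₐ[k] Ω) (p : L[X]) (hp : ∀ n, ι0 (p.coeff n) ∈ w.ring) :
    ∃ P : k[X], (∀ n, Rs w (ι0 (p.coeff n)) (P.coeff n)) ∧
      ∀ (x : Ω) (X0 : k), Rs w x X0 → Rs w (p.eval₂ (ι0 : L →+* Ω) x) (aeval X0 P) := by
  classical
  choose r hr using fun n => exists_rs (w := w) (hp n)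
  have hcoeff : ∀ n, (∑ m ∈ Finset.range (p.natDegree + 1), Polynomial.monomial m (r m)).coeff n =
      if n ∈ Finset.range (p.natDegree + 1) then r n else 0 := by
    intro n
    rw [Polynomial.finsetSum_coeff]
    simp only [Polynomial.coeff_monomial]
    rw [Finset.sum_ite_eq']
  refine ⟨∑ m ∈ Finset.range (p.natDegree + 1), Polynomial.monomial m (r m), fun n => ?_, fun x X0 hx => ?_⟩
  · rw [hcoeff]
    split_ifs with h
    · exact hr n
    · rw [Finset.mem_range] at h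
      rw [Polynomial.coeff_eq_zero_of_natDegree_lt (by omega), map_zero]
      exact rs_zero
  · rw [Polynomial.eval₂_eq_sum_range, map_sum]
    refine Rs.sum _ fun m _ => ?_
    rw [Polynomial.aeval_monomial]
    exact (hr m).mul (rs_pow14 hx m)

theorem exists_gen (C : Cv k L) {a b : k} (hΔ : 4 * a ^ 3 + 27 * b ^ 2 ≠ 0)
    (ha : C.a = algebraMap k L a) (hb : C.b = algebraMap k L b) (ι0 : L →ₐ[k] Ω) (x y : Ω)
    (hns : (sw (algebraMap k Ω a) (algebraMap k Ω b)).toAffine.Nonsingular x y)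
    (hg : ev C.p C.q ι0 x y ≠ 0) (T : Set (Place k L)) (hT : T.Finite) :
    ∃ G0 : Set Ω, G0.Finite ∧ ∀ w : RPl k Ω, (∀ z ∈ G0, z ∈ w.ring) → w.pl C.hL ι0 ∉ T ∧
      ∃ (m : Md C (w.pl C.hL ι0) 1 a b) (X Y : k) (hs : (sw a b).toAffine.Nonsingular X Y),
        RedC w (EPt.mk x y hns) (EPt.mk X Y hs) ∧ Vl w (ev C.p C.q ι0 x y) (m.evt X Y) := by
  classical
  obtain ⟨i0, hi0⟩ := Function.ne_iff.mp hg
  have hi0' : ev C.p C.q ι0 x y i0 ≠ 0 := hi0
  choose f hf0 hf1 using fun v : Place k L => FF.exists_uniformizer C.hL v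
  refine ⟨{x, y, (ev C.p C.q ι0 x y i0)⁻¹} ∪ ((Set.range fun a : Fin C.M × ℕ => ι0 ((C.p a.1).coeff a.2)) ∪
    ((Set.range fun a : Fin C.M × ℕ => ι0 ((C.q a.1).coeff a.2)) ∪ (fun v => (ι0 (f v))⁻¹) '' T)), ?_, ?_⟩
  · exact (Set.toFinite _).union ((finite_coeffs14 ι0 C.p).union ((finite_coeffs14 ι0 C.q).union (hT.image _)))
  intro w hw
  have hx : x ∈ w.ring := hw x (Or.inl (by simp))
  have hy : y ∈ w.ring := hw y (Or.inl (by simp))
  have hgi : (ev C.p C.q ι0 x y i0)⁻¹ ∈ w.ring := hw _ (Or.inl (by simp))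
  have hp : ∀ i n, ι0 ((C.p i).coeff n) ∈ w.ring := fun i n => hw _ (Or.inr (Or.inl ⟨(i, n), rfl⟩))
  have hq : ∀ i n, ι0 ((C.q i).coeff n) ∈ w.ring := fun i n => hw _ (Or.inr (Or.inr (Or.inl ⟨(i, n), rfl⟩)))
  have hfv : ∀ v ∈ T, (ι0 (f v))⁻¹ ∈ w.ring := fun v hv => hw _ (Or.inr (Or.inr (Or.inr ⟨v, hv, rfl⟩)))
  refine ⟨fun hvT => ?_, ?_⟩
  · -- the place of the base is not in `T`
    have h1 : f (w.pl C.hL ι0) ∈ (w.pl C.hL ι0).ring.nonunits :=
      (ord_pos_iff C.hL _ (hf0 _)).mp (by rw [hf1]; exact one_pos)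
    have h2 : IsRes (w.pl C.hL ι0) (f (w.pl C.hL ι0)) 0 := isRes_zero_iff.mpr h1
    rw [isRes_pl] at h2
    obtain ⟨c, hc⟩ := exists_rs (w := w) (hfv _ hvT)
    have h3 := h2.mul hc
    have h4 : ι0 (f (w.pl C.hL ι0)) ≠ 0 := by
      intro h
      exact hf0 _ ((map_eq_zero_iff ι0 ι0.toRingHom.injective).mp h)
    rw [mul_inv_cancel₀ h4, zero_mul] at h3
    exact zero_ne_one (h3.unique rs_one)
  obtain ⟨X0, hX0⟩ := exists_rs (w := w) hx
  obtain ⟨Y0, hY0⟩ := exists_rs (w := w) hy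
  choose P hPc hPe using fun i => red_poly14 w ι0 (C.p i) (hp i)
  choose Q hQc hQe using fun i => red_poly14 w ι0 (C.q i) (hq i)
  have hev : ∀ i, Rs w (ev C.p C.q ι0 x y i) (aeval X0 (P i) + aeval X0 (Q i) * Y0) := fun i =>
    (hPe i x X0 hX0).add ((hQe i x X0 hX0).mul hY0)
  have hne0 : aeval X0 (P i0) + aeval X0 (Q i0) * Y0 ≠ 0 := by
    intro h
    obtain ⟨c, hc⟩ := exists_rs (w := w) hgi
    have h3 := (hev i0).mul hc
    rw [mul_inv_cancel₀ hi0', h, zero_mul] at h3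
    exact zero_ne_one (h3.unique rs_one)
  let m : Md C (w.pl C.hL ι0) 1 a b := {
    s_ne := one_ne_zero
    hA := by
      rw [one_pow, one_mul, ha]
      exact isRes_const a
    hB := by
      rw [one_pow, one_mul, hb]
      exact isRes_const b
    c := 1
    c_ne := one_ne_zero
    P := P
    Q := Q
    hP := by
      intro i n
      rw [inv_one, one_pow, one_mul, one_mul, isRes_pl]
      exact hPc i n
    hQ := by
      intro i n
      rw [inv_one, one_pow, one_mul, one_mul, isRes_pl]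
      exact hQc i n
    ne := by
      refine ⟨i0, ?_⟩
      by_contra hcon
      rw [not_or, not_not, not_not] at hcon
      apply hne0
      rw [hcon.1, hcon.2]
      simp }
  -- the equation
  have he := (sw_nonsingular.mp hns).1
  have heq : Y0 ^ 2 = X0 ^ 3 + a * X0 + b := by
    have h1 := rs_pow14 hY0 2
    have h2 := ((rs_pow14 hX0 3).add ((rs_const (w := w) a).mul hX0)).add (rs_const (w := w) b)
    rw [he] at h1
    exact h1.unique h2
  have hs : (sw a b).toAffine.Nonsingular X0 Y0 := by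
    rw [sw_nonsingular]
    refine ⟨heq, ?_⟩
    by_contra hcon
    rw [not_or, not_not, not_not] at hcon
    obtain ⟨h1, h2⟩ := hcon
    have hY : Y0 = 0 := by
      have h3 : 2 * Y0 = 0 := by linear_combination h2
      exact (mul_eq_zero.mp h3).resolve_left two_ne_zero
    rw [hY] at heq
    apply hΔ
    have hA : a = -3 * X0 ^ 2 := by
      linear_combination (-1) * h1
    have hB : b = 2 * X0 ^ 3 := by
      linear_combination (-1) * heq + X0 * h1
    rw [hA, hB]
    ring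
  refine ⟨m, X0, Y0, hs, ⟨hX0, hY0⟩, fun h => hne0 (congrFun h i0), 1, fun i => ?_⟩
  rw [one_mul]
  exact hev i

end Pool.Agent.Helper21.TZ
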