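import Mathlib
import Pool.Agent.Helper9.NS
import Pool.Agent.Helper21.TZ.Defs
import Pool.Agent.Helper21.TO.FinPt

/-!
# Block TZ-RED: reduction at a rational place is a homomorphism
Constant curve `y ^ 2 = x ^ 3 + a x + b`, discriminant not zero, `w` a rational place of `K` (a valuation ring with residue
field `k`; `Rs w x c`: `x` has the residue `c`; `Rs.add`, `Rs.mul`, `Rs.inv`, `Rs.unique`, `exists_rs`, `rs_const` in
Helper15/GT/RP.lean).
* `redC_unique`: by cases (`Rs.unique`; `x ∉ w.ring` against `Rs.mem`).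
* `exists_redC`: `P = mk x y`, `x ∈ w.ring`: then `y ^ 2 ∈ w.ring`, so `y ∈ w.ring` (otherwise `y⁻¹` is a nonunit, and so is `y⁻¹ ^ 2`,
  but `y ^ 2 * y⁻¹ ^ 2 = 1`); residues `X`, `Y` satisfy the equation, nonsingular by `nonsing_of_disc` (TB/Final.lean, with
  `K = k`). `x ∉ w.ring`: `Q = 0`.
* `redC_neg`: `negY x y = -y`, see `red_neg` in TO/RedAdd.lean.
* `redC_add`: port of `red_add_ne` (TO/RedNe), `red_add_zero` (TO/RedZero), `red_add_opp` (TO/RedOpp) with `σ = 1`, `IsRes` replaced by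
  `Rs w`, `exists_res` by `exists_rs` (in `core56` the residue of `y1 u ^ 2` is `0` as its square has the residue `0`: it is
  in the ring, see above, and has a residue). Then, as in `red_add_aux67` of TO/RedAdd.lean, but the auxiliary point is
  constant, no extension of the field is needed: choose `X0` by `exists_X` (TO/FinPt.lean) for the finite set
  `{Pt, -Pt, Qt - Pt, -Qt - Pt} ∪ {U | U + U = -(Pt + Qt)}` (`finite_two`), `Y0` a square root of `X0 ^ 3 + a X0 + b ≠ 0`, `U` the point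
  `(algebraMap X0, algebraMap Y0)`, whose reduction is `(X0, Y0)` (`rs_const`). `P + U`, `(P + U) + Q`, `((P + U) + Q) + (-U)`.
-/

set_option linter.unusedSectionVars false

namespace Pool.Agent.Helper21.TZ

open VC VF Function Polynomial
open Pool.Agent.Helper21.TO Pool.Agent.Helper21.TB Pool.Agent.Helper15.GT

universe u

variable {k K : Type u} [Field k] [IsAlgClosed k] [CharZero k] [Field K] [Algebra k K]
  {w : RPl k K} {a b : k}

private lemma pow52 {x : K} {c : k} (h : Rs w x c) (n : ℕ) : Rs w (x ^ n) (c ^ n) := by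
  induction n with
  | zero =>
    rw [pow_zero, pow_zero]
    exact rs_one
  | succ n ih =>
    rw [pow_succ, pow_succ]
    exact ih.mul h

private lemma mem_sq52 {R : ValuationSubring K} {z : K} (h : z ^ 2 ∈ R) : z ∈ R := by
  rw [← ValuationSubring.valuation_le_one_iff, map_pow] at h
  rw [← ValuationSubring.valuation_le_one_iff]
  exact (pow_le_one_iff two_ne_zero).mp h

theorem redC_unique {P : EK k K a b} {Q Q' : EPt a b} (h : RedC w P Q) (h' : RedC w P Q') :
    Q = Q' := by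
  rcases P with _ | ⟨x, y, g⟩
  · have h1 : Q = 0 := h
    have h2 : Q' = 0 := h'
    rw [h1, h2]
  · rcases Q with _ | ⟨X, Y, f⟩
    · rcases Q' with _ | ⟨X', Y', f'⟩
      · rfl
      · exact absurd h'.1.mem h
    · rcases Q' with _ | ⟨X', Y', f'⟩
      · exact absurd h.1.mem h'
      · have e1 : X = X' := h.1.unique h'.1
        have e2 : Y = Y' := h.2.unique h'.2
        subst e1 e2
        rfl

theorem exists_redC (hΔ : 4 * a ^ 3 + 27 * b ^ 2 ≠ 0) (w : RPl k K) (P : EK k K a b) :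
    ∃ Q, RedC w P Q := by
  rcases P with _ | ⟨x, y, g⟩
  · exact ⟨0, rfl⟩
  · by_cases hx : x ∈ w.ring
    · have e := (sw_nonsingular.mp g).1
      have hy : y ∈ w.ring := by
        apply mem_sq52
        rw [e]
        exact w.ring.add_mem _ _ (w.ring.add_mem _ _ (pow_mem hx 3)
          (w.ring.mul_mem _ _ (w.alg a) hx)) (w.alg b)
      obtain ⟨X, hX⟩ := exists_rs hx
      obtain ⟨Y, hY⟩ := exists_rs hy
      have e2 : Y ^ 2 = X ^ 3 + a * X + b := by
        have h1 := ((pow52 hX 3).add ((rs_const a).mul hX)).add (rs_const b)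
        rw [← e] at h1
        exact (pow52 hY 2).unique h1
      exact ⟨EPt.mk X Y (nonsing_of_disc hΔ e2), hX, hY⟩
    · exact ⟨0, hx⟩

theorem redC_neg {P : EK k K a b} {Pt : EPt a b} (hP : RedC w P Pt) : RedC w (-P) (-Pt) := by
  rcases P with _ | ⟨x, y, h⟩
  · have h1 : Pt = 0 := hP
    rw [h1]
    exact (neg_zero : -(0 : EPt a b) = 0)
  · rcases Pt with _ | ⟨X, Y, h'⟩
    · exact hP
    · refine ⟨hP.1, ?_⟩
      have e1 : (sw (algebraMap k K a) (algebraMap k K b)).toAffine.negY x y = -y := by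
        simp [WeierstrassCurve.Affine.negY]
      have e2 : (sw a b).toAffine.negY X Y = -Y := by simp [WeierstrassCurve.Affine.negY]
      rw [e1, e2]
      exact hP.2.neg

/-- Points with different reductions, both not zero. -/
private lemma ne52 {P Q : EK k K a b} {X1 Y1 X2 Y2 : k}
    {h1 : (sw a b).toAffine.Nonsingular X1 Y1} {h2 : (sw a b).toAffine.Nonsingular X2 Y2}
    (hP : RedC w P (EPt.mk X1 Y1 h1)) (hQ : RedC w Q (EPt.mk X2 Y2 h2)) (hX : X1 ≠ X2) :
    RedC w (P + Q) (EPt.mk X1 Y1 h1 + EPt.mk X2 Y2 h2) := by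
  match P, Q, hP, hQ with
  | .zero, _, hP, _ => exact absurd hP (WeierstrassCurve.Affine.Point.some_ne_zero h1)
  | .some x1 y1 g1, .zero, _, hQ =>
    exact absurd hQ (WeierstrassCurve.Affine.Point.some_ne_zero h2)
  | .some x1 y1 g1, .some x2 y2 g2, hP, hQ =>
    obtain ⟨hx1, hy1⟩ := hP
    obtain ⟨hx2, hy2⟩ := hQ
    have hx : x1 ≠ x2 := by
      rintro rfl
      exact hX (hx1.unique hx2)
    have hXsub : X1 - X2 ≠ 0 := sub_ne_zero.2 hX
    have hl : Rs w ((y1 - y2) / (x1 - x2)) ((Y1 - Y2) / (X1 - X2)) :=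
      (hy1.sub hy2).div (hx1.sub hx2) hXsub
    have hx3 := ((pow52 hl 2).sub hx1).sub hx2
    have hy3 := ((hl.mul (hx3.sub hx1)).add hy1).neg
    rw [WeierstrassCurve.Affine.Point.add_of_X_ne hx, WeierstrassCurve.Affine.Point.add_of_X_ne hX]
    refine ⟨?_, ?_⟩
    · rw [WeierstrassCurve.Affine.slope_of_X_ne hx, WeierstrassCurve.Affine.slope_of_X_ne hX]
      simp only [WeierstrassCurve.Affine.addX, zero_mul, add_zero, sub_zero]
      exact hx3
    · rw [WeierstrassCurve.Affine.slope_of_X_ne hx, WeierstrassCurve.Affine.slope_of_X_ne hX]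
      simp only [WeierstrassCurve.Affine.addY, WeierstrassCurve.Affine.negAddY,
        WeierstrassCurve.Affine.negY, WeierstrassCurve.Affine.addX, zero_mul, add_zero, sub_zero]
      exact hy3

private lemma core52 {x1 y1 x y A B : K} {X Y At Bt : k}
    (e1 : y1 ^ 2 = x1 ^ 3 + A * x1 + B) (e2 : y ^ 2 = x ^ 3 + A * x + B)
    (hA : Rs w A At) (hB : Rs w B Bt) (hx : Rs w x X) (hy : Rs w y Y)
    (hx1 : x1 ∉ w.ring) :
    Rs w (((y1 - y) / (x1 - x)) ^ 2 - x1 - x) X ∧
      Rs w (-((y1 - y) / (x1 - x) * (((y1 - y) / (x1 - x)) ^ 2 - x1 - x - x1) + y1)) Y := by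
  have h0 : x1 ≠ 0 := by
    rintro rfl
    exact hx1 w.ring.zero_mem
  have hne : x1 - x ≠ 0 := by
    intro h
    apply hx1
    rw [sub_eq_zero.mp h]
    exact hx.mem
  have c2 : Rs w (2 : K) (2 : k) := by
    have := rs_const (w := w) (2 : k)
    rwa [map_ofNat] at this
  have c3 : Rs w (3 : K) (3 : k) := by
    have := rs_const (w := w) (3 : k)
    rwa [map_ofNat] at this
  have c1 : Rs w (1 : K) (1 : k) := rs_one
  obtain ⟨u, hu⟩ : ∃ u, u = x1⁻¹ := ⟨_, rfl⟩
  have hu1 : x1 * u = 1 := by rw [hu, mul_inv_cancel₀ h0]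
  have hur : Rs w u 0 := by
    rw [rs_zero_iff, ValuationSubring.mem_nonunits_iff_or, hu, inv_inv]
    exact Or.inr hx1
  have hwr : Rs w (y1 * u ^ 2) 0 := by
    have h1 : Rs w ((y1 * u ^ 2) ^ 2) (0 : k) := by
      have e : (y1 * u ^ 2) ^ 2 = u + A * u ^ 3 + B * u ^ 4 := by
        linear_combination u ^ 4 * e1 +
          (u * ((x1 * u) ^ 2 + x1 * u + 1) + A * u ^ 3) * hu1
      rw [e]
      have := (hur.add (hA.mul (pow52 hur 3))).add (hB.mul (pow52 hur 4))
      convert this using 1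
      ring
    obtain ⟨e, he⟩ := exists_rs (mem_sq52 h1.mem)
    have he2 : e ^ 2 = 0 := (pow52 he 2).unique h1
    have he0 : e = 0 := (pow_eq_zero_iff two_ne_zero).mp he2
    rwa [he0] at he
  obtain ⟨L, hLd⟩ : ∃ L, L = (y1 - y) / (x1 - x) := ⟨_, rfl⟩
  have hL : L * (x1 - x) = y1 - y := by rw [hLd, div_mul_cancel₀ _ hne]
  have hDe : 1 - x * u = (x1 - x) * u := by linear_combination -hu1
  have hD : Rs w (1 - x * u) 1 := by
    have := c1.sub (hx.mul hur)
    convert this using 1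
    ring
  have hD0 : 1 - x * u ≠ 0 := (hD.inv_mem one_ne_zero).1
  have hDi : Rs w (1 - x * u)⁻¹ 1 := by
    have := hD.inv one_ne_zero
    rwa [inv_one] at this
  rw [← hLd]
  constructor
  · have e : (L ^ 2 - x1 - x) * (1 - x * u) ^ 2 =
        (1 + x * u) * (x + A * u) + 2 * B * u ^ 2 - 2 * y * (y1 * u ^ 2) := by
      have e3 : (L ^ 2 - x1 - x) * (1 - x * u) ^ 2 =
          ((L * (x1 - x)) ^ 2 - (x1 + x) * (x1 - x) ^ 2) * u ^ 2 := by
        rw [hDe]; ring
      rw [e3, hL]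
      linear_combination u ^ 2 * e1 + u ^ 2 * e2 +
        (A * u + (x1 * u + 1) * x + x ^ 2 * u) * hu1
    have e4 : L ^ 2 - x1 - x = ((1 + x * u) * (x + A * u) + 2 * B * u ^ 2 -
        2 * y * (y1 * u ^ 2)) * ((1 - x * u)⁻¹) ^ 2 := by
      rw [← e, inv_pow, mul_inv_cancel_right₀ (pow_ne_zero _ hD0)]
    rw [e4]
    have := (((c1.add (hx.mul hur)).mul (hx.add (hA.mul hur))).add
      ((c2.mul hB).mul (pow52 hur 2))).sub ((c2.mul hy).mul hwr)
    have := this.mul (pow52 hDi 2)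
    convert this using 1
    ring
  · have e : L * (L ^ 2 - x1 - x - x) * (1 - x * u) ^ 3 =
        -2 * y * (1 + A * u ^ 2 + B * u ^ 3) + (3 * x ^ 2 + A) * (y1 * u ^ 2) +
        (A * x + 2 * B - x ^ 3 + 2 * y ^ 2) * (y1 * u ^ 2) * u - y * (3 * x ^ 2 + A) * u ^ 2 -
        y * (A * x + 2 * B - x ^ 3) * u ^ 3 := by
      have e3 : L * (L ^ 2 - x1 - x - x) * (1 - x * u) ^ 3 =
          (L * (x1 - x)) * ((L * (x1 - x)) ^ 2 - (x1 + 2 * x) * (x1 - x) ^ 2) * u ^ 3 := by
        rw [hDe]; ring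
      have e4 : (y1 - y) ^ 2 - (x1 + 2 * x) * (x1 - x) ^ 2 =
          -2 * y * y1 + (3 * x ^ 2 + A) * x1 + A * x + 2 * B - x ^ 3 := by
        linear_combination e1 + e2
      rw [e3, hL, e4]
      linear_combination (-2 * y * u ^ 3) * e1 +
        (-2 * y * ((x1 * u) ^ 2 + x1 * u + 1) - 2 * y * A * u ^ 2 +
          (3 * x ^ 2 + A) * y1 * u ^ 2 - y * (3 * x ^ 2 + A) * u ^ 2) * hu1
    have e5 : -(L * (L ^ 2 - x1 - x - x1) + y1) = -(L * (L ^ 2 - x1 - x - x) + y) := by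
      linear_combination hL
    have e6 : L * (L ^ 2 - x1 - x - x) =
        (-2 * y * (1 + A * u ^ 2 + B * u ^ 3) + (3 * x ^ 2 + A) * (y1 * u ^ 2) +
        (A * x + 2 * B - x ^ 3 + 2 * y ^ 2) * (y1 * u ^ 2) * u - y * (3 * x ^ 2 + A) * u ^ 2 -
        y * (A * x + 2 * B - x ^ 3) * u ^ 3) * ((1 - x * u)⁻¹) ^ 3 := by
      rw [← e, inv_pow, mul_inv_cancel_right₀ (pow_ne_zero _ hD0)]
    rw [e5, e6]
    have f1 := (c2.neg.mul hy).mul ((c1.add (hA.mul (pow52 hur 2))).add (hB.mul (pow52 hur 3)))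
    have f2 := ((c3.mul (pow52 hx 2)).add hA).mul hwr
    have f3 := ((((((hA.mul hx).add (c2.mul hB)).sub (pow52 hx 3)).add
      (c2.mul (pow52 hy 2))).mul hwr).mul hur)
    have f4 := (hy.mul ((c3.mul (pow52 hx 2)).add hA)).mul (pow52 hur 2)
    have f5 := (hy.mul (((hA.mul hx).add (c2.mul hB)).sub (pow52 hx 3))).mul (pow52 hur 3)
    have f6 := ((((((f1.add f2).add f3).sub f4).sub f5).mul (pow52 hDi 3)).add hy).neg
    convert f6 using 1
    ring

private lemma zero52 {P Q : EK k K a b} {X Y : k} {h : (sw a b).toAffine.Nonsingular X Y}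
    (hP : RedC w P (0 : EPt a b)) (hQ : RedC w Q (EPt.mk X Y h)) :
    RedC w (P + Q) (EPt.mk X Y h) := by
  rcases P with _ | ⟨x1, y1, h1⟩
  · have e : (WeierstrassCurve.Affine.Point.zero : EK k K a b) + Q = Q := zero_add Q
    rw [e]
    exact hQ
  rcases Q with _ | ⟨x, y, h2⟩
  · exact absurd hQ (WeierstrassCurve.Affine.Point.some_ne_zero h)
  have hP' : x1 ∉ w.ring := hP
  obtain ⟨hQ1, hQ2⟩ : Rs w x X ∧ Rs w y Y := hQ
  have hne : x1 ≠ x := by
    rintro rfl
    exact hP' hQ1.mem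
  have q1 := (sw_nonsingular.mp h1).1
  have q2 := (sw_nonsingular.mp h2).1
  obtain ⟨g1, g2⟩ := core52 q1 q2 (rs_const a) (rs_const b) hQ1 hQ2 hP'
  rw [WeierstrassCurve.Affine.Point.add_of_X_ne hne]
  refine ⟨?_, ?_⟩
  · convert g1 using 1
    rw [WeierstrassCurve.Affine.slope_of_X_ne hne, WeierstrassCurve.Affine.addX]
    ring
  · convert g2 using 1
    rw [WeierstrassCurve.Affine.slope_of_X_ne hne, WeierstrassCurve.Affine.addY,
      WeierstrassCurve.Affine.negAddY, WeierstrassCurve.Affine.negY, WeierstrassCurve.Affine.addX]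
    ring

private lemma opp52 {P Q : EK k K a b} {X Y : k}
    {h : (sw a b).toAffine.Nonsingular X Y} {h' : (sw a b).toAffine.Nonsingular X (-Y)}
    (hP : RedC w P (EPt.mk X Y h)) (hQ : RedC w Q (EPt.mk X (-Y) h')) (hY : Y ≠ 0) :
    RedC w (P + Q) (0 : EPt a b) := by
  have h2Y : Y ≠ -Y := by
    intro h0
    apply hY
    have h1 : (2 : k) * Y = 0 := by linear_combination h0
    exact (mul_eq_zero.1 h1).resolve_left two_ne_zero
  rcases P with _ | ⟨x1, y1, h1⟩
  · exact absurd hP (WeierstrassCurve.Affine.Point.some_ne_zero h)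
  rcases Q with _ | ⟨x2, y2, h2⟩
  · exact absurd hQ (WeierstrassCurve.Affine.Point.some_ne_zero h')
  obtain ⟨hX1, hY1⟩ : Rs w x1 X ∧ Rs w y1 Y := hP
  obtain ⟨hX2, hY2⟩ : Rs w x2 X ∧ Rs w y2 (-Y) := hQ
  have hneg : (sw (algebraMap k K a) (algebraMap k K b)).toAffine.negY x2 y2 = -y2 := by
    simp [WeierstrassCurve.Affine.negY]
  by_cases hx : x1 = x2
  · subst hx
    have e1 := (sw_nonsingular.1 h1).1
    have e2 := (sw_nonsingular.1 h2).1
    have e3 : (y1 - y2) * (y1 + y2) = 0 := by linear_combination e1 - e2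
    rcases mul_eq_zero.1 e3 with e4 | e4
    · have e5 : y1 = y2 := sub_eq_zero.1 e4
      rw [e5] at hY1
      exact absurd (hY1.unique hY2) h2Y
    · have e5 : y1 = (sw (algebraMap k K a) (algebraMap k K b)).toAffine.negY x1 y2 := by
        rw [hneg]
        linear_combination e4
      rw [WeierstrassCurve.Affine.Point.add_of_Y_eq rfl e5]
      rfl
  · rw [WeierstrassCurve.Affine.Point.add_of_X_ne hx]
    show (sw (algebraMap k K a) (algebraMap k K b)).toAffine.addX x1 x2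
      ((sw (algebraMap k K a) (algebraMap k K b)).toAffine.slope x1 x2 y1 y2) ∉ w.ring
    rw [WeierstrassCurve.Affine.slope_of_X_ne hx]
    have hax : (sw (algebraMap k K a) (algebraMap k K b)).toAffine.addX x1 x2
        ((y1 - y2) / (x1 - x2)) = ((y1 - y2) / (x1 - x2)) ^ 2 - x1 - x2 := by
      simp [WeierstrassCurve.Affine.addX]
    rw [hax]
    intro hmem
    have e1 : ((y1 - y2) / (x1 - x2)) ^ 2 =
        (((y1 - y2) / (x1 - x2)) ^ 2 - x1 - x2) + x1 + x2 := by ring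
    have e2 : ((y1 - y2) / (x1 - x2)) ^ 2 ∈ w.ring := by
      rw [e1]
      exact w.ring.add_mem _ _ (w.ring.add_mem _ _ hmem hX1.mem) hX2.mem
    obtain ⟨l0, hl0⟩ := exists_rs (mem_sq52 e2)
    have hx0 : x1 - x2 ≠ 0 := sub_ne_zero.2 hx
    have e3 : y1 - y2 = (y1 - y2) / (x1 - x2) * (x1 - x2) := by
      rw [div_mul_cancel₀ _ hx0]
    have e4 := hY1.sub hY2
    rw [e3] at e4
    have e5 := e4.unique (hl0.mul (hX1.sub hX2))
    rw [sub_self, mul_zero] at e5
    apply h2Y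
    linear_combination e5

/-- The sum of two points whose reductions have different `x`-coordinates. -/
private lemma gen52 {P Q : EK k K a b} {Pt Qt : EPt a b}
    (hP : RedC w P Pt) (hQ : RedC w Q Qt) (h1 : Pt ≠ Qt) (h2 : Pt ≠ -Qt) :
    RedC w (P + Q) (Pt + Qt) := by
  rcases Pt with _ | ⟨X1, Y1, g1⟩
  · rcases Qt with _ | ⟨X2, Y2, g2⟩
    · exact absurd rfl h1
    · have h3 : RedC w (P + Q) (EPt.mk X2 Y2 g2) := zero52 hP hQ
      change RedC w (P + Q) ((0 : EPt a b) + EPt.mk X2 Y2 g2)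
      rw [zero_add]
      exact h3
  · rcases Qt with _ | ⟨X2, Y2, g2⟩
    · have h3 : RedC w (Q + P) (EPt.mk X1 Y1 g1) := zero52 hQ hP
      change RedC w (P + Q) (EPt.mk X1 Y1 g1 + (0 : EPt a b))
      rw [add_zero, add_comm]
      exact h3
    · refine ne52 hP hQ fun hX => ?_
      rcases (WeierstrassCurve.Affine.Point.X_eq_iff (h₁ := g1) (h₂ := g2)).mp hX with h3 | h3
      · exact h1 h3
      · exact h2 h3

/-- Additivity, given a general point. -/
private lemma aux52 {P Q U : EK k K a b} {Pt Qt : EPt a b}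
    {X0 Y0 : k} {h0 : (sw a b).toAffine.Nonsingular X0 Y0} (hY : Y0 ≠ 0)
    (hP : RedC w P Pt) (hQ : RedC w Q Qt) (hU : RedC w U (EPt.mk X0 Y0 h0))
    (c1 : EPt.mk X0 Y0 h0 ≠ Pt) (c2 : EPt.mk X0 Y0 h0 ≠ -Pt) (c3 : EPt.mk X0 Y0 h0 ≠ Qt - Pt)
    (c4 : EPt.mk X0 Y0 h0 ≠ -Qt - Pt)
    (c5 : EPt.mk X0 Y0 h0 + EPt.mk X0 Y0 h0 ≠ -(Pt + Qt)) :
    RedC w (P + Q) (Pt + Qt) := by
  have hns : (sw a b).toAffine.Nonsingular X0 (-Y0) := by
    refine sw_nonsingular.mpr ⟨by rw [neg_sq]; exact (sw_nonsingular.mp h0).1, Or.inr fun h => hY ?_⟩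
    have h2 : (2 : k) * Y0 = 0 := by linear_combination -h
    exact (mul_eq_zero.mp h2).resolve_left two_ne_zero
  have e3 : -EPt.mk X0 Y0 h0 = EPt.mk X0 (-Y0) hns := by
    simp only [WeierstrassCurve.Affine.Point.neg_some, WeierstrassCurve.Affine.Point.some.injEq,
      true_and]
    simp [WeierstrassCurve.Affine.negY]
  obtain ⟨Ut, hUt⟩ : ∃ Ut : EPt a b, Ut = EPt.mk X0 Y0 h0 := ⟨_, rfl⟩
  have hU' := hU
  have e3' := e3
  rw [← hUt] at hU' c1 c2 c3 c4 c5 e3'
  have s1 := gen52 hP hU' (fun h => c1 h.symm) (fun h => c2 (by rw [h, neg_neg]))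
  have s2 := gen52 s1 hQ (fun h => c3 (by rw [← h]; abel))
    (fun h => c4 (by rw [← h]; abel))
  have s3 := redC_neg hU'
  have e1 : P + U + Q + -U = P + Q := by abel
  by_cases hz : Pt + Qt = 0
  · have e2 : Pt + Ut + Qt = EPt.mk X0 Y0 h0 := by
      rw [add_right_comm, hz, zero_add, hUt]
    rw [e2] at s2
    rw [e3'] at s3
    have s4 := opp52 s2 s3 hY
    rw [e1] at s4
    rw [hz]
    exact s4
  · have s4 := gen52 s2 s3 (fun h => c5 ?_) (fun h => hz ?_)
    · have e2 : Pt + Ut + Qt + -Ut = Pt + Qt := by abel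
      rwa [e1, e2] at s4
    · have h4 : Ut + Ut + (Pt + Qt) = 0 := by
        have : Pt + Ut + Qt + Ut = 0 := by rw [h]; abel
        rw [← this]; abel
      exact eq_neg_of_add_eq_zero_left h4
    · rw [neg_neg] at h
      have : Pt + Ut + Qt - Ut = 0 := by rw [h]; abel
      rw [← this]; abel

theorem redC_add (hΔ : 4 * a ^ 3 + 27 * b ^ 2 ≠ 0) {P Q : EK k K a b} {Pt Qt : EPt a b}
    (hP : RedC w P Pt) (hQ : RedC w Q Qt) : RedC w (P + Q) (Pt + Qt) := by
  have hfin : (({Pt, -Pt, Qt - Pt, -Qt - Pt} : Set (EPt a b)) ∪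
      {U : EPt a b | U + U = -(Pt + Qt)}).Finite :=
    (Set.toFinite _).union (finite_two _)
  obtain ⟨X0, hX0, hB⟩ := exists_X _ hfin
  obtain ⟨Y0, hY0⟩ := IsAlgClosed.exists_pow_nat_eq (X0 ^ 3 + a * X0 + b) (n := 2) two_pos
  have hY0' : Y0 ≠ 0 := by
    rintro rfl
    apply hX0
    rw [← hY0]
    ring
  have h0 : (sw a b).toAffine.Nonsingular X0 Y0 := nonsing_of_disc hΔ hY0
  have h0' : (sw (algebraMap k K a) (algebraMap k K b)).toAffine.Nonsingular
      (algebraMap k K X0) (algebraMap k K Y0) := nonsingular_map (Algebra.ofId k K) h0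
  have hU : RedC w (EPt.mk (algebraMap k K X0) (algebraMap k K Y0) h0' : EK k K a b)
      (EPt.mk X0 Y0 h0) := ⟨rs_const X0, rs_const Y0⟩
  have hB0 := hB Y0 h0
  simp only [Set.mem_union, Set.mem_insert_iff, Set.mem_singleton_iff, Set.mem_ofPred_eq,
    not_or] at hB0
  obtain ⟨⟨c1, c2, c3, c4⟩, c5⟩ := hB0
  exact aux52 hY0' hP hQ hU c1 c2 c3 c4 c5

end Pool.Agent.Helper21.TZ
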