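import Mathlib
import Pool.Agent.Helper9.NS
import Pool.Agent.Helper21.TZ.RedR

/-!
# TZ: the reduction homomorphism
-/

set_option linter.unusedSectionVars false

namespace Pool.Agent.Helper21.TZ

open VC VF Function Polynomial
open Pool.Agent.Helper21.TO Pool.Agent.Helper21.TB Pool.Agent.Helper15.GT

universe u

variable {k F K : Type u} [Field k] [IsAlgClosed k] [CharZero k] [Field F] [Algebra k F] [Field K] [Algebra k K]
  {a b : k}

/-- The reduction homomorphism. -/
noncomputable def redH (hΔ : 4 * a ^ 3 + 27 * b ^ 2 ≠ 0) (w : RPl k K) : EK k K a b →+ EPt a b where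
  toFun P := (exists_redC hΔ w P).choose
  map_zero' := redC_unique (exists_redC hΔ w 0).choose_spec rfl
  map_add' P Q := redC_unique (exists_redC hΔ w (P + Q)).choose_spec
    (redC_add hΔ (exists_redC hΔ w P).choose_spec (exists_redC hΔ w Q).choose_spec)

lemma redH_spec (hΔ : 4 * a ^ 3 + 27 * b ^ 2 ≠ 0) (w : RPl k K) (P : EK k K a b) :
    RedC w P (redH hΔ w P) := (exists_redC hΔ w P).choose_spec

lemma redH_eq (hΔ : 4 * a ^ 3 + 27 * b ^ 2 ≠ 0) {w : RPl k K} {P : EK k K a b} {Q : EPt a b}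
    (h : RedC w P Q) : redH hΔ w P = Q := redC_unique (redH_spec hΔ w P) h

/-- The reduction of the image of a point. -/
lemma redH_map (hΔ : 4 * a ^ 3 + 27 * b ^ 2 ≠ 0) (w : RPl k K) (f : F →ₐ[k] K) (P : EK k F a b) :
    redH hΔ w (mapC f a b P) = redH hΔ (w.comap f) P := by
  apply redH_eq
  have h := redH_spec hΔ (w.comap f) P
  rcases P with _ | ⟨x, y, hxy⟩
  · exact h
  · rcases hQ : redH hΔ (w.comap f) (EPt.mk x y hxy) with _ | ⟨X, Y, hXY⟩
    · rw [hQ] at h
      exact h
    · rw [hQ] at h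
      exact ⟨(rs_comap w f x X).mp h.1, (rs_comap w f y Y).mp h.2⟩

end Pool.Agent.Helper21.TZ
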