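import Mathlib
import Pool.Agent.Helper9.NS
import Pool.Agent.Helper21.TZ.RedH
import Pool.Agent.Helper21.TB.Link
import Pool.Agent.Helper21.TB.OjOf

/-!
# Block TZ-HRM: the homomorphism of a functional is harmonic on curves
`Z = 0`: the reduction is `0` (`redH_eq`), the function is `0` (`harm_const`). Let `Z = mk X Y`. Let `Φ q = φ (q 0)` on `(C.S.pow 1).Pt`; it is
`Kills (C.S.pow 1) Φ` by `Kills.comp` (Helper83/VF/Kill.lean, the map `q ↦ q 0` is `Induced`). By `oj_of_link (linkB B)` (TB/OjOf, TB/Link) the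
function `p ↦ altL Φ (fun i => cycB D C (p i))` is `OJ D 1`; it is equal to `φ_lin (cycB D C (p 0))` (`Perm (Fin 1)` has one element, `extProd` of
one cycle: both sides are additive in the cycle, for a point use `extProd` of singles). Apply `OJ.harm` to the point
`c = {p := .cst P, x := X, y := Y, ..} : KPt D K`, `hE`: `ev D.al = algebraMap k K (rs P D.al)`, `rs P D.al = D.a₀ P`, `-3 D.a₀ P = a`, etc. It gives a
harmonic `G`. For a place `w` of `K` let `Q = redH (rpl hK w) Z`, `RedC (rpl hK w) Z Q` (`redH_spec`). If `Q = mk X0 Y0` then `c.Val w (P, X0, Y0)` (`Rs (rpl hK w) z r`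
unfolds to `IsRes w z r`), so `G w = φ_lin (cycB D C (P, X0, Y0)) = ψ Q`. If `Q = 0` then `c.Zero w` (second case) and `G w = 0`.
-/

set_option linter.unusedSectionVars false

namespace Pool.Agent.Helper21.TZ

open VC VF Function Polynomial
open Pool.Agent.Helper21.TO Pool.Agent.Helper21.TB Pool.Agent.Helper15.GT
open Pool.Agent.Helper51.VB (Ell KPt BP rs OJ)
open Pool.Agent.Helper51.VN (OnE Harm)

universe u

variable {k : Type u} [Field k] [IsAlgClosed k] [CharZero k] {F L : Type u} [Field F]
  [Algebra k F] [Field L] [Algebra k L] [Algebra F L] [IsScalarTower k F L]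

omit [IsAlgClosed k] [CharZero k] in
private lemma h94_ext_one {α : Type u} (z : α →₀ ℤ) (φ : α → k) :
    Finsupp.linearCombination ℤ (fun q : Fin 1 → α => φ (q 0)) (ext' (fun _ : Fin 1 => z)) =
      Finsupp.linearCombination ℤ φ z := by
  rcases isEmpty_or_nonempty α with hα | ⟨⟨p0⟩⟩
  · have hz : z = 0 := Subsingleton.elim _ _
    have h0 : ext' (fun _ : Fin 1 => z) = 0 := by
      ext p
      rw [ext'_apply, hz]
      simp
    rw [h0, hz, map_zero, map_zero]
  · rw [ext'_update_single (fun _ : Fin 1 => p0) 0 z (fun _ => z)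
      (fun j hj => absurd (Subsingleton.elim j 0) hj) rfl, Finsupp.linearCombination_mapDomain]
    have e : ((fun q : Fin 1 → α => φ (q 0)) ∘ fun p => update (fun _ : Fin 1 => p0) 0 p) = φ := by
      funext p
      show φ (update (fun _ : Fin 1 => p0) 0 p 0) = φ p
      rw [update_self]
    rw [e]

omit [IsAlgClosed k] [CharZero k] in
private lemma h94_altL_one {S : Variety k} (φ : S.Pt → k) (z : S.Cycles) :
    altL (n := 1) (fun q : (S.pow 1).Pt => φ (q 0)) (fun _ => z) = Finsupp.linearCombination ℤ φ z := by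
  unfold altL
  rw [Fintype.sum_unique]
  have e1 : ((Equiv.Perm.sign (default : Equiv.Perm (Fin 1)) : ℤˣ) : ℤ) = 1 := by
    rw [show (default : Equiv.Perm (Fin 1)) = 1 from rfl, Equiv.Perm.sign_one]
    rfl
  rw [e1, one_smul]
  exact h94_ext_one z φ

theorem harm_psi0 {D : Ell k F} {C : Cv k L} (B : Fb D C) {a b : k} (h : Cst D a b)
    {φ : C.S.Pt → k} (hφ : Kills C.S φ) (P : Place k F) (ψ : EPt a b →+ k)
    (hψ : ∀ (x y : k) (hxy : (sw a b).toAffine.Nonsingular x y),
      Finsupp.linearCombination ℤ φ (cycB D C (P, x, y)) = ψ (EPt.mk x y hxy))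
    {K : Type u} [Field K] [Algebra k K] (hK : IsFunctionField k K) (Z : EK k K a b) :
    Harm hK (fun w => ψ (redH h.disc (rpl hK w) Z)) := by
  have hind : Induced (C.S.pow 1) C.S (fun q => q 0) := fun K _ _ hK c => ⟨c 0, fun v => rfl⟩
  have hΦ : Kills (C.S.pow 1) (fun q : (C.S.pow 1).Pt => φ (q 0)) := hφ.comp hind
  have hO := oj_of_link (linkB B) hΦ
  rcases Z with _ | ⟨X, Y, hXY⟩
  · have e : (fun w : Place k K => ψ (redH h.disc (rpl hK w) (WeierstrassCurve.Affine.Point.zero : EK k K a b))) =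
        fun _ => 0 := by
      funext w
      have h0 : redH h.disc (rpl hK w) (WeierstrassCurve.Affine.Point.zero : EK k K a b) = 0 :=
        map_zero (redH h.disc (rpl hK w))
      rw [h0, map_zero]
    rw [e]
    intro f hf
    simp
  · have hE : OnE ((BP.cst P : BP k F K).ev D.al) ((BP.cst P : BP k F K).ev D.be) X Y := by
      have h1 := (sw_nonsingular.mp hXY).1
      have ha : algebraMap k K a = -3 * algebraMap k K (rs P D.al) := by
        rw [← h.ha P, map_mul, map_neg, map_ofNat]
        rfl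
      have hb : algebraMap k K b = -2 * algebraMap k K (rs P D.be) := by
        rw [← h.hb P, map_mul, map_neg, map_ofNat]
        rfl
      show Y ^ 2 = X ^ 3 - 3 * algebraMap k K (rs P D.al) * X - 2 * algebraMap k K (rs P D.be)
      rw [h1, ha, hb]
      ring
    let c : KPt D K := { p := .cst P, x := X, y := Y, nc := fun P' _ => h.nice P', hE := hE }
    obtain ⟨G, hG, hval, hzero⟩ := hO.harm K hK (fun _ => c)
    have e : (fun w : Place k K => ψ (redH h.disc (rpl hK w) (EPt.mk X Y hXY : EK k K a b))) = G := by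
      funext w
      have hs := redH_spec h.disc (rpl hK w) (EPt.mk X Y hXY : EK k K a b)
      rcases hQ : redH h.disc (rpl hK w) (EPt.mk X Y hXY : EK k K a b) with _ | ⟨X0, Y0, hXY0⟩
      · rw [hQ] at hs
        have hx : X ∉ w.ring := hs
        rw [hzero w 0 (Or.inr ⟨P, h.nice P, rfl, hx⟩)]
        exact map_zero ψ
      · rw [hQ] at hs
        have hv : c.Val w (P, X0, Y0) := ⟨h.nice P, rfl, hs.1, hs.2⟩
        rw [hval w (fun _ => (P, X0, Y0)) (fun _ => hv)]
        rw [h94_altL_one φ (cycB D C (P, X0, Y0)), hψ X0 Y0 hXY0]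
    exact e ▸ hG

end Pool.Agent.Helper21.TZ
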