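import Mathlib
import Pool.Agent.Helper9.NS
import Pool.Agent.Helper21.TZ.RedH

/-!
# Block TZ-LRED: the functional of a point comes from a curve
If `Z = 0`, or `Z = mk X Y` with `X` algebraic over `k` (then `X = algebraMap X₀`, `Y = algebraMap Y₀`, as `k` is algebraically closed and `Y` is
algebraic over `k`), the reduction of `Z` is the same point (`redH_eq`, `rs_const`) at all `w`; take `K1 = K`, `j = κ` and `l`
constant (`harm_const`). Otherwise `X` is transcendental; let `K1 = IntermediateField.adjoin k {X, Y}`, `j` the inclusion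
(`IntermediateField.val`). It is a function field: `IsFunctionField k K1` (Helper26/VC: there is a transcendental element over which
`K1` is finite; `K1 = k (X) (Y)` and `Y` is integral over `k (X)`; see the proofs for `adjoin` in Helper51, Helper26/VC, or `exists_roots` in
Helper83/VF for how this is proved). `Z' = mk ⟨X, _⟩ ⟨Y, _⟩`, `mapC j Z' = Z`, `l w = ψ (redH (rpl hK1 w) Z')`, `redH_map`, `rpl_pl`.
-/

set_option linter.unusedSectionVars false

namespace Pool.Agent.Helper21.TZ

open VC VF Function Polynomial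
open Pool.Agent.Helper21.TO Pool.Agent.Helper21.TB Pool.Agent.Helper15.GT
open Pool.Agent.Helper51.VB (Ell KPt BP rs OJ)
open Pool.Agent.Helper51.VN (OnE Harm)

universe u

variable {k F₀ K : Type u} [Field k] [IsAlgClosed k] [CharZero k] [Field F₀] [Algebra k F₀] [Field K]
  [Algebra k K]

private theorem exists_ff40 {X Y : F₀} (hX : Transcendental k X) (a b : k)
    (h : Y ^ 2 = X ^ 3 + algebraMap k F₀ a * X + algebraMap k F₀ b) :
    ∃ (K1 : Type u) (_ : Field K1) (_ : Algebra k K1) (_ : IsFunctionField k K1)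
      (j : K1 →ₐ[k] F₀) (X' Y' : K1), j X' = X ∧ j Y' = Y := by
  let f : RatFunc k →ₐ[k] F₀ :=
    (IntermediateField.val _).comp (RatFunc.algEquivOfTranscendental X hX).toAlgHom
  have hf : f RatFunc.X = X := by
    change ((RatFunc.algEquivOfTranscendental X hX RatFunc.X : IntermediateField.adjoin k {X}) : F₀) = X
    rw [RatFunc.algEquivOfTranscendental_X]
  letI : Algebra (RatFunc k) F₀ := f.toRingHom.toAlgebra
  have hal : ∀ z : RatFunc k, algebraMap (RatFunc k) F₀ z = f z := fun _ => rfl
  haveI : IsScalarTower k (RatFunc k) F₀ := IsScalarTower.of_algebraMap_eq fun z =>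
    (f.commutes z).symm
  have hint : IsIntegral (RatFunc k) Y := by
    refine IsIntegral.of_pow (n := 2) (by norm_num) ?_
    have e : Y ^ 2 = algebraMap (RatFunc k) F₀ ((RatFunc.X : RatFunc k) ^ 3 +
        algebraMap k (RatFunc k) a * RatFunc.X + algebraMap k (RatFunc k) b) := by
      rw [hal, map_add, map_add, map_mul, map_pow, hf, f.commutes, f.commutes]
      exact h
    rw [e]
    exact isIntegral_algebraMap
  haveI : FiniteDimensional (RatFunc k) (IntermediateField.adjoin (RatFunc k) {Y}) :=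
    IntermediateField.adjoin.finiteDimensional hint
  have hF : IsFunctionField k (IntermediateField.adjoin (RatFunc k) {Y}) :=
    VF.ff_ext (F := RatFunc k) VF.ff_ratFunc
  refine ⟨IntermediateField.adjoin (RatFunc k) {Y}, inferInstance, inferInstance, hF,
    ((IntermediateField.adjoin (RatFunc k) {Y}).val.restrictScalars k),
    algebraMap (RatFunc k) _ RatFunc.X, ⟨Y, IntermediateField.mem_adjoin_simple_self _ Y⟩, ?_, rfl⟩
  change algebraMap (RatFunc k) F₀ RatFunc.X = X
  rw [hal, hf]

private theorem mem_range40 {X : F₀} (hX : IsAlgebraic k X) : ∃ X₀ : k, algebraMap k F₀ X₀ = X := by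
  have h1 := hX.isIntegral
  exact minpoly.mem_range_of_degree_eq_one k X
    (IsAlgClosed.degree_eq_one_of_irreducible k (minpoly.irreducible h1))

theorem exists_lred (hK : IsFunctionField k K) (κ : K →ₐ[k] F₀) {a b : k}
    (hΔ : 4 * a ^ 3 + 27 * b ^ 2 ≠ 0) (Z : EK k F₀ a b) (ψ : EPt a b →+ k)
    (hψ : ∀ (K' : Type u) [Field K'] [Algebra k K'] (hK' : IsFunctionField k K') (Z' : EK k K' a b),
      Harm hK' (fun w => ψ (redH hΔ (rpl hK' w) Z'))) :
    ∃ (K1 : Type u) (_ : Field K1) (_ : Algebra k K1) (hK1 : IsFunctionField k K1)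
      (j : K1 →ₐ[k] F₀) (l : Place k K1 → k), Harm hK1 l ∧
      ∀ w : RPl k F₀, ψ (redH hΔ w Z) = l (w.pl hK1 j) := by
  rcases Z with _ | ⟨X, Y, hXY⟩
  · refine ⟨K, inferInstance, inferInstance, hK, κ, fun _ => 0, harm_const hK 0, fun w => ?_⟩
    have h1 : redH hΔ w (WeierstrassCurve.Affine.Point.zero : EK k F₀ a b) = 0 :=
      (redH hΔ w).map_zero
    rw [h1, map_zero]
  have heq := (sw_nonsingular.mp hXY).1
  by_cases hX : Transcendental k X
  · obtain ⟨K1, i1, i2, hK1, j, X', Y', hX', hY'⟩ := exists_ff40 hX a b heq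
    haveI : CharZero K1 := charZero_of_injective_algebraMap (algebraMap k K1).injective
    have hΔ1 : 4 * (algebraMap k K1 a) ^ 3 + 27 * (algebraMap k K1 b) ^ 2 ≠ 0 := by
      have h1 : 4 * (algebraMap k K1 a) ^ 3 + 27 * (algebraMap k K1 b) ^ 2 =
          algebraMap k K1 (4 * a ^ 3 + 27 * b ^ 2) := by
        simp only [map_add, map_mul, map_pow, map_ofNat]
      rw [h1]
      exact (_root_.map_ne_zero _).mpr hΔ
    have hns : (sw (algebraMap k K1 a) (algebraMap k K1 b)).toAffine.Nonsingular X' Y' := by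
      refine nonsing_of_disc hΔ1 (j.toRingHom.injective ?_)
      change j (Y' ^ 2) = j (X' ^ 3 + algebraMap k K1 a * X' + algebraMap k K1 b)
      rw [map_pow, map_add, map_add, map_mul, map_pow, hX', hY', j.commutes, j.commutes]
      exact heq
    refine ⟨K1, i1, i2, hK1, j, fun w => ψ (redH hΔ (rpl hK1 w) (EPt.mk X' Y' hns)),
      hψ K1 hK1 _, fun w => ?_⟩
    have e : mapC j a b (EPt.mk X' Y' hns) = EPt.mk X Y hXY := by
      subst hX' hY'
      rfl
    change ψ (redH hΔ w (EPt.mk X Y hXY)) = ψ (redH hΔ (rpl hK1 (w.pl hK1 j)) (EPt.mk X' Y' hns))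
    rw [rpl_pl, ← redH_map, e]
  · have hX' : IsAlgebraic k X := by
      by_contra h
      exact hX h
    obtain ⟨X₀, rfl⟩ := mem_range40 hX'
    have hY' : IsAlgebraic k Y := by
      refine IsIntegral.isAlgebraic (IsIntegral.of_pow (n := 2) (by norm_num) ?_)
      rw [heq, ← map_pow, ← map_mul, ← map_add, ← map_add]
      exact isIntegral_algebraMap
    obtain ⟨Y₀, rfl⟩ := mem_range40 hY'
    have h0 : Y₀ ^ 2 = X₀ ^ 3 + a * X₀ + b := by
      apply (algebraMap k F₀).injective
      rw [map_pow, heq, map_add, map_add, map_mul, map_pow]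
    refine ⟨K, inferInstance, inferInstance, hK, κ,
      fun _ => ψ (EPt.mk X₀ Y₀ (nonsing_of_disc hΔ h0)), harm_const hK _, fun w => ?_⟩
    rw [redH_eq hΔ (Q := EPt.mk X₀ Y₀ (nonsing_of_disc hΔ h0))]
    exact ⟨rs_const X₀, rs_const Y₀⟩

end Pool.Agent.Helper21.TZ
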