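import Mathlib
import Pool.Agent.Helper9.NS
import Pool.Agent.Helper21.TZ.Defs
import Pool.Agent.Helper15.GT.Move

/-!
# Block TZ-MOVE: a functional which comes from two curves at general places comes from them everywhere
The proof of `moving` in Helper15/GT/Move.lean (with its private lemmas), with two curves: `V1`, `V2` from `exists_sep` for
`w.pl hK1 κ1` and `w.pl hK2 κ2`; `G1 = range (ξ i / ξ i0) ∪ κ1 '' V1 ∪ κ2 '' V2`; two morphisms `c1'`, `c2'` by `place_of`;
the function `φ (c (w)) - l1 (c1' (w)) - l2 (c2' (w))` is harmonic (`harm_sub` twice) and vanishes at almost all places.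
(helper55)
-/

set_option linter.unusedSectionVars false

namespace Pool.Agent.Helper21.TZ

open VC VF Function Polynomial
open Pool.Agent.Helper21.TO Pool.Agent.Helper21.TB Pool.Agent.Helper15.GT
open Pool.Agent.Helper51.VB (Ell KPt BP rs OJ)
open Pool.Agent.Helper51.VN (OnE Harm)

universe u

variable {k F K1 K2 : Type u} [Field k] [IsAlgClosed k] [CharZero k] [Field F] [Algebra k F] [Field K1]
  [Algebra k K1] [Field K2] [Algebra k K2]

private lemma finite_poles21 {K : Type u} [Field K] [Algebra k K] (hK : IsFunctionField k K)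
    (f : K) : {w : Place k K | f ∉ w.ring}.Finite := by
  by_cases hf : f = 0
  · subst hf
    have e : {w : Place k K | (0 : K) ∉ w.ring} = ∅ := by
      ext w
      simp only [Set.mem_ofPred_eq, Set.mem_empty_iff_false, iff_false, not_not]
      exact w.ring.zero_mem
    rw [e]
    exact Set.finite_empty
  · refine (finite_support_ord hK hf).subset fun w hw h0 => hw ?_
    exact (ord_nonneg_iff hK w hf).mp h0.ge

private lemma exists_reshom21 {K : Type u} [Field K] [Algebra k K] (hK : IsFunctionField k K)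
    {A : Type u} [CommRing A] [Algebra k A] (χ : A →ₐ[k] K) (w : Place k K)
    (h : ∀ z, χ z ∈ w.ring) : ∃ χw : A →ₐ[k] k, ∀ z, IsRes w (χ z) (χw z) := by
  choose f hf using fun z => VF.exists_res hK (h z)
  refine ⟨{ toFun := f, map_one' := ?_, map_mul' := ?_, map_zero' := ?_, map_add' := ?_,
            commutes' := ?_ }, hf⟩
  · exact (hf 1).unique (by rw [map_one]; exact isRes_one)
  · intro a b
    exact (hf (a * b)).unique (by rw [map_mul]; exact (hf a).mul (hf b))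
  · exact (hf 0).unique (by rw [map_zero]; exact isRes_zero)
  · intro a b
    exact (hf (a + b)).unique (by rw [map_add]; exact (hf a).add (hf b))
  · intro r
    exact (hf _).unique (by rw [AlgHom.commutes]; exact isRes_const r)

omit [IsAlgClosed k] [CharZero k] in
private lemma exists_reshom_rpl21 (w : RPl k F) (A : Subalgebra k F) (h : ∀ z ∈ A, z ∈ w.ring) :
    ∃ χw : A →ₐ[k] k, ∀ z : A, Rs w (z : F) (χw z) := by
  choose f hf using fun z : A => exists_rs (w := w) (h z z.2)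
  refine ⟨{ toFun := f, map_one' := ?_, map_mul' := ?_, map_zero' := ?_, map_add' := ?_,
            commutes' := ?_ }, hf⟩
  · exact (hf 1).unique rs_one
  · intro a b
    exact (hf (a * b)).unique ((hf a).mul (hf b))
  · exact (hf 0).unique rs_zero
  · intro a b
    exact (hf (a + b)).unique ((hf a).add (hf b))
  · intro r
    exact (hf _).unique (rs_const r)

theorem moving2 (hK1 : IsFunctionField k K1) (κ1 : K1 →ₐ[k] F) (hK2 : IsFunctionField k K2)
    (κ2 : K2 →ₐ[k] F) {M : ℕ} (ξ : Fin M → F) (hξ : ξ ≠ 0)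
    {φ : (proj k (van k ξ)).Pt → k} (hφ : Kills (proj k (van k ξ)) φ) {l1 : Place k K1 → k}
    (hl1 : Harm hK1 l1) {l2 : Place k K2 → k} (hl2 : Harm hK2 l2) (G0 : Set F) (hG0 : G0.Finite)
    (h : ∀ w : RPl k F, (∀ z ∈ G0, z ∈ w.ring) →
      φ (evP ξ hξ w) = l1 (w.pl hK1 κ1) + l2 (w.pl hK2 κ2)) (w : RPl k F) :
    φ (evP ξ hξ w) = l1 (w.pl hK1 κ1) + l2 (w.pl hK2 κ2) := by
  classical
  -- normalized coordinates of the value
  obtain ⟨b₁, hb₁, hs₁, hv₁, he₁⟩ := exists_evP ξ hξ w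
  obtain ⟨i0, hi0⟩ := Function.ne_iff.mp hb₁
  have hi0' : b₁ i0 ≠ 0 := hi0
  set b : Fin M → k := fun i => (b₁ i0)⁻¹ * b₁ i with hbdef
  have hv : Vl w ξ b := hv₁.smul (inv_ne_zero hi0')
  have hbi : b i0 = 1 := inv_mul_cancel₀ hi0'
  have he : evP ξ hξ w = ppt b hv.1 hv.sat := evP_eq hξ hv hv.1 hv.sat
  obtain ⟨hb0, r, hr⟩ := id hv
  have hr0 := Vl.r_ne hb0 hr
  have hξi : ξ i0 ≠ 0 := by
    intro h0
    have h1 := hr i0
    rw [h0, mul_zero, hbi] at h1
    exact zero_ne_one (rs_zero.unique h1)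
  have hrat : ∀ i, Rs w (ξ i / ξ i0) (b i) := by
    intro i
    have h1 := (hr i).div (hr i0) (by rw [hbi]; exact one_ne_zero)
    rw [hbi, div_one] at h1
    rwa [mul_div_mul_left _ _ hr0] at h1
  set P1 := w.pl hK1 κ1 with hP1
  set P2 := w.pl hK2 κ2 with hP2
  obtain ⟨V1, hVP1, -, hVgen1, hVsep1⟩ := exists_sep hK1 P1
  obtain ⟨V2, hVP2, -, hVgen2, hVsep2⟩ := exists_sep hK2 P2
  -- the algebras
  set G1 : Set F := Set.range (fun i => ξ i / ξ i0) ∪
    (κ1 '' (V1 : Set K1) ∪ κ2 '' (V2 : Set K2)) with hG1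
  have hG1f : G1.Finite := (Set.finite_range _).union
    ((V1.finite_toSet.image _).union (V2.finite_toSet.image _))
  set G : Set F := G1 ∪ G0 with hG
  have hGf : G.Finite := hG1f.union hG0
  set R : Subalgebra k F := Algebra.adjoin k G1 with hR
  set R' : Subalgebra k F := Algebra.adjoin k G with hR'
  have hsub : ∀ z, z ∈ G → z ∈ R' := fun z hz => Algebra.subset_adjoin hz
  have hsub1 : ∀ z, z ∈ G1 → z ∈ R := fun z hz => Algebra.subset_adjoin hz
  have f1 : Algebra.FiniteType k R' :=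
    (Subalgebra.fg_iff_finiteType _).mp (Subalgebra.fg_def.mpr ⟨G, hGf, rfl⟩)
  have f2 : Algebra.FiniteType k R :=
    (Subalgebra.fg_iff_finiteType _).mp (Subalgebra.fg_def.mpr ⟨G1, hG1f, rfl⟩)
  have hRR : R ≤ R' := Algebra.adjoin_mono Set.subset_union_left
  have hRw : ∀ z ∈ R, z ∈ w.ring := by
    intro z hz
    induction hz using Algebra.adjoin_induction with
    | mem z hz =>
      rcases hz with ⟨i, rfl⟩ | ⟨a, ha, rfl⟩ | ⟨a, ha, rfl⟩
      · exact (hrat i).mem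
      · exact hVP1 a ha
      · exact hVP2 a ha
    | algebraMap c => exact w.alg c
    | add x y _ _ hx hy => exact w.ring.add_mem _ _ hx hy
    | mul x y _ _ hx hy => exact w.ring.mul_mem _ _ hx hy
  obtain ⟨χ0, hχ0⟩ := exists_reshom_rpl21 w R hRw
  let _ : Algebra R R' := (Subalgebra.inclusion hRR).toRingHom.toAlgebra
  have _ : IsScalarTower k R R' := IsScalarTower.of_algebraMap_eq (fun r => rfl)
  have hinj : Injective (algebraMap R R') := Subalgebra.inclusion_injective hRR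
  obtain ⟨L, iK, iA, hL, χ, v0, hv0⟩ := curve_selection hinj χ0
  -- the morphism to the model
  have hr1 : ∀ i, ξ i / ξ i0 ∈ G1 := fun i => Or.inl ⟨i, rfl⟩
  let rr : Fin M → R' := fun i => ⟨ξ i / ξ i0, hRR (hsub1 _ (hr1 i))⟩
  let c : Fin M → L := fun i => χ (rr i)
  have hvanr : ∀ P ∈ van k ξ, ∀ n, P.IsHomogeneous n → MvPolynomial.aeval rr P = 0 := by
    intro P hP n hn
    apply Subtype.ext
    have h1 := MvPolynomial.comp_aeval_apply (R := k) rr R'.val P
    have h3 : (fun i => R'.val (rr i)) = fun i => (ξ i0)⁻¹ * ξ i := by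
      funext i
      change ξ i / ξ i0 = _
      rw [div_eq_inv_mul]
    have h4 : MvPolynomial.aeval ξ P = 0 := hP
    rw [h3, aeval_smul' hn, h4, mul_zero] at h1
    exact h1
  have hcs : Sat (van k ξ) c := by
    intro P hP n hn
    have h1 := MvPolynomial.comp_aeval_apply (R := k) rr χ P
    rw [hvanr P hP n hn, map_zero] at h1
    exact h1.symm
  have hrj : rr i0 = 1 := Subtype.ext (div_self hξi)
  have hcj : c i0 = 1 := by
    change χ (rr i0) = 1
    rw [hrj, map_one]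
  have hc : c ≠ 0 := by
    intro h0
    have h1 := congrFun h0 i0
    rw [hcj] at h1
    exact one_ne_zero h1
  have hc0 : (proj k (van k ξ)).eval hL (ppt c hc hcs) v0 = ppt b hv.1 hv.sat := by
    refine peval_eq hL v0 hc hcs hv.1 hv.sat (fun i => ?_)
    have h1 := hv0 ⟨ξ i / ξ i0, hsub1 _ (hr1 i)⟩
    have h2 := hχ0 ⟨ξ i / ξ i0, hsub1 _ (hr1 i)⟩
    rw [h2.unique (hrat i)] at h1
    exact h1
  -- the morphisms to the two curves
  have hVG1 : ∀ a ∈ V1, κ1 a ∈ G1 := fun a ha => Or.inr (Or.inl ⟨a, ha, rfl⟩)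
  have hVG2 : ∀ a ∈ V2, κ2 a ∈ G1 := fun a ha => Or.inr (Or.inr ⟨a, ha, rfl⟩)
  have hVR1 : Algebra.adjoin k (V1 : Set K1) ≤ R'.comap κ1 :=
    Algebra.adjoin_le fun a ha => hRR (hsub1 _ (hVG1 a ha))
  have hVR2 : Algebra.adjoin k (V2 : Set K2) ≤ R'.comap κ2 :=
    Algebra.adjoin_le fun a ha => hRR (hsub1 _ (hVG2 a ha))
  let ψ1 : Algebra.adjoin k (V1 : Set K1) →ₐ[k] R' :=
    AlgHom.codRestrict (κ1.comp (Algebra.adjoin k (V1 : Set K1)).val) R' (fun z => hVR1 z.2)
  let ψ2 : Algebra.adjoin k (V2 : Set K2) →ₐ[k] R' :=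
    AlgHom.codRestrict (κ2.comp (Algebra.adjoin k (V2 : Set K2)).val) R' (fun z => hVR2 z.2)
  obtain ⟨c1, hc1⟩ := place_of hK1 V1 hVgen1 hVsep1 hL (χ.comp ψ1)
  obtain ⟨c2, hc2⟩ := place_of hK2 V2 hVgen2 hVsep2 hL (χ.comp ψ2)
  have hP01 : (curve hK1).eval hL c1 v0 = P1 := hc1 v0 P1 fun a ha => by
    refine ⟨χ0 ⟨κ1 a, hsub1 _ (hVG1 a ha)⟩, hv0 ⟨κ1 a, hsub1 _ (hVG1 a ha)⟩, ?_⟩
    exact (isRes_pl hK1 κ1 w a _).mpr (hχ0 ⟨κ1 a, hsub1 _ (hVG1 a ha)⟩)
  have hP02 : (curve hK2).eval hL c2 v0 = P2 := hc2 v0 P2 fun a ha => by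
    refine ⟨χ0 ⟨κ2 a, hsub1 _ (hVG2 a ha)⟩, hv0 ⟨κ2 a, hsub1 _ (hVG2 a ha)⟩, ?_⟩
    exact (isRes_pl hK2 κ2 w a _).mpr (hχ0 ⟨κ2 a, hsub1 _ (hVG2 a ha)⟩)
  have harm : Harm hL (fun w' => (φ ((proj k (van k ξ)).eval hL (ppt c hc hcs) w') -
      l1 ((curve hK1).eval hL c1 w')) - l2 ((curve hK2).eval hL c2 w')) :=
    harm_sub (harm_sub (harm_kills hφ hL _) (harm_kills (harm_curve hl1) hL c1))
      (harm_kills (harm_curve hl2) hL c2)
  have _ : Finite G := hGf.to_subtype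
  have hz : ∀ w' ∉ ⋃ z : G, {w' : Place k L | χ ⟨z.1, hsub z.1 z.2⟩ ∉ w'.ring},
      (φ ((proj k (van k ξ)).eval hL (ppt c hc hcs) w') - l1 ((curve hK1).eval hL c1 w')) -
        l2 ((curve hK2).eval hL c2 w') = 0 := by
    intro w' hw'
    have hreg : ∀ z (hz : z ∈ G), χ ⟨z, hsub z hz⟩ ∈ w'.ring := by
      intro z hz
      by_contra h0
      exact hw' (Set.mem_iUnion.mpr ⟨⟨z, hz⟩, h0⟩)
    have hall : ∀ z : R', χ z ∈ w'.ring := by
      rintro ⟨z, hz⟩
      induction hz using Algebra.adjoin_induction with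
      | mem z hz => exact hreg z hz
      | algebraMap s =>
        have h1 : χ (algebraMap k R' s) ∈ w'.ring := by
          rw [AlgHom.commutes]
          exact w'.algebraMap_mem s
        exact h1
      | add a b ha hb h1 h2 =>
        have h3 : (⟨a + b, add_mem ha hb⟩ : R') = ⟨a, ha⟩ + ⟨b, hb⟩ := rfl
        rw [h3, map_add]
        exact w'.ring.add_mem _ _ h1 h2
      | mul a b ha hb h1 h2 =>
        have h3 : (⟨a * b, mul_mem ha hb⟩ : R') = ⟨a, ha⟩ * ⟨b, hb⟩ := rfl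
        rw [h3, map_mul]
        exact w'.ring.mul_mem _ _ h1 h2
    obtain ⟨χw, hχw⟩ := exists_reshom21 hL χ w' hall
    obtain ⟨w'', hw''⟩ := exists_rpl R' χw
    have h1 := h w'' (fun z hz => (hw'' ⟨z, hsub z (Or.inr hz)⟩).mem)
    have h2 : (proj k (van k ξ)).eval hL (ppt c hc hcs) w' = evP ξ hξ w'' := by
      have h3 : Vl w'' ξ (fun i => χw (rr i)) := by
        refine ⟨?_, (ξ i0)⁻¹, fun i => ?_⟩
        · intro h0
          have h4 := congrFun h0 i0
          rw [hrj, map_one] at h4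
          exact one_ne_zero h4
        · have h4 := hw'' (rr i)
          have h5 : (ξ i0)⁻¹ * ξ i = (rr i : F) := by
            change _ = ξ i / ξ i0
            rw [div_eq_inv_mul]
          rw [h5]
          exact h4
      rw [evP_eq hξ h3 h3.1 h3.sat]
      exact peval_eq hL w' hc hcs h3.1 h3.sat (fun i => hχw (rr i))
    have h3 : (curve hK1).eval hL c1 w' = w''.pl hK1 κ1 := hc1 w' _ fun a ha => by
      refine ⟨χw ⟨κ1 a, hRR (hsub1 _ (hVG1 a ha))⟩, hχw ⟨κ1 a, hRR (hsub1 _ (hVG1 a ha))⟩, ?_⟩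
      exact (isRes_pl hK1 κ1 w'' a _).mpr (hw'' ⟨κ1 a, hRR (hsub1 _ (hVG1 a ha))⟩)
    have h5 : (curve hK2).eval hL c2 w' = w''.pl hK2 κ2 := hc2 w' _ fun a ha => by
      refine ⟨χw ⟨κ2 a, hRR (hsub1 _ (hVG2 a ha))⟩, hχw ⟨κ2 a, hRR (hsub1 _ (hVG2 a ha))⟩, ?_⟩
      exact (isRes_pl hK2 κ2 w'' a _).mpr (hw'' ⟨κ2 a, hRR (hsub1 _ (hVG2 a ha))⟩)
    rw [h2, h3, h5, h1, add_sub_cancel_left, sub_self]
  have h4 := harm_zero harm (Set.finite_iUnion fun z => finite_poles21 hL _) hz v0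
  beta_reduce at h4
  rw [hc0, hP01, hP02, sub_sub, sub_eq_zero] at h4
  rw [he]
  exact h4

end Pool.Agent.Helper21.TZ
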