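import Mathlib
import Pool.Agent.Helper9.NS
import Pool.Agent.Helper21.TZ.Defs

/-!
# Block TZ-PSI: the homomorphism of a functional
Let `m : Md C v 1 a b`, and `P = VQ.res D.hL C.hL v`, so `Ab P v` (`ab_iff`). As `-3 D.a₀ P = a`, `-2 D.b₀ P = b`, `m` is also a model of
type `Md C v 1 (-3 * D.a₀ P) (-2 * D.b₀ P)` (state auxiliary lemmas with variables `a' b'` and hypotheses `a' = ..`, and use `subst`).
`Md.lin_cyc` (TB/PsiM.lean) gives a homomorphism `ψ_m` with `φ_lin (m.sp (s + t)) - φ_lin (m.sp t) = ψ_m s` for good points and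
`φ_lin (m.cyc s) = ψ_m s`. By `cycB_eq` (TB/CycB.lean) `ψ_m (mk x y) = φ_lin (cycB D C (P, x, y))`, `= φ_lin (cycB D C (T0, x, y))` by `h0`. Hence all
`ψ_m` are equal (on `0` also). Let `ψ = ψ_m` for one model `m` (`exists_ab`, `nice_scale`, `exists_md`, `Md.exists_good`, as in
`exists_fdata` in TB/CycB.lean, used to get one model at every place).
-/

set_option linter.unusedSectionVars false

namespace Pool.Agent.Helper21.TZ

open VC VF Function Polynomial
open Pool.Agent.Helper21.TO Pool.Agent.Helper21.TB Pool.Agent.Helper15.GT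
open Pool.Agent.Helper51.VB (Ell KPt BP rs OJ)
open Pool.Agent.Helper51.VN (OnE Harm)

universe u

variable {k : Type u} [Field k] [IsAlgClosed k] [CharZero k] {F L : Type u} [Field F]
  [Algebra k F] [Field L] [Algebra k L] [Algebra F L] [IsScalarTower k F L]

/-- the homomorphism of a model and the cycles of the points of a nice fibre -/
private theorem psi_aux63 {D : Ell k F} {C : Cv k L} (B : Fb D C) {φ : C.S.Pt → k}
    (hφ : Kills C.S φ) {P : Place k F} {v : Place k L} (hv : Ab P v) (hP : D.Nice P) {a' b' : k}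
    (ha : -3 * D.a₀ P = a') (hb : -2 * D.b₀ P = b') (m : Md C v 1 a' b') :
    ∃ ψ : EPt a' b' →+ k,
      (∀ s t, m.Good t → m.Good (s + t) →
        Finsupp.linearCombination ℤ φ (m.sp (s + t)) - Finsupp.linearCombination ℤ φ (m.sp t) =
          ψ s) ∧
      ∀ (x y : k) (hxy : (sw a' b').toAffine.Nonsingular x y),
        Finsupp.linearCombination ℤ φ (cycB D C (P, x, y)) = ψ (EPt.mk x y hxy) := by
  subst ha hb
  obtain ⟨ψ, h1, h2⟩ := m.lin_cyc hφ
  refine ⟨ψ, h1, fun x y hxy => ?_⟩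
  have h3 := cycB_eq B (p := (P, x, y)) hP hv m hxy φ hφ
  rw [map_sub, h2] at h3
  exact sub_eq_zero.mp h3

private theorem md_aux63 {D : Ell k F} {C : Cv k L} (B : Fb D C) (P : Place k F)
    (hP : D.Nice P) {a' b' : k} (ha : -3 * D.a₀ P = a') (hb : -2 * D.b₀ P = b') :
    ∃ v : Place k L, Ab P v ∧ Nonempty (Md C v 1 a' b') := by
  subst ha hb
  obtain ⟨v, hv⟩ := exists_ab D.hL C.hL P
  obtain ⟨h1, h2⟩ := nice_scale B hP hv
  exact ⟨v, hv, exists_md C v one_ne_zero h1 h2⟩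

theorem exists_psi0 {D : Ell k F} {C : Cv k L} (B : Fb D C) {a b : k} (h : Cst D a b)
    {φ : C.S.Pt → k} (hφ : Kills C.S φ) (T0 : Place k F)
    (h0 : ∀ (P : Place k F) (x y : k), y ^ 2 = x ^ 3 + a * x + b →
      Finsupp.linearCombination ℤ φ (cycB D C (P, x, y)) =
        Finsupp.linearCombination ℤ φ (cycB D C (T0, x, y))) :
    ∃ ψ : EPt a b →+ k,
      (∀ (v : Place k L) (m : Md C v 1 a b) (s s' : EPt a b), m.Good s → m.Good s' →
        Finsupp.linearCombination ℤ φ (m.sp s) - Finsupp.linearCombination ℤ φ (m.sp s') =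
          ψ s - ψ s') ∧
      ∀ (P : Place k F) (x y : k) (hxy : (sw a b).toAffine.Nonsingular x y),
        Finsupp.linearCombination ℤ φ (cycB D C (P, x, y)) = ψ (EPt.mk x y hxy) := by
  obtain ⟨v0, hv0, ⟨m0⟩⟩ := md_aux63 B T0 (h.nice T0) (h.ha T0) (h.hb T0)
  obtain ⟨ψ, -, hψ⟩ := psi_aux63 B hφ hv0 (h.nice T0) (h.ha T0) (h.hb T0) m0
  have key : ∀ (P : Place k F) (x y : k) (hxy : (sw a b).toAffine.Nonsingular x y),
      Finsupp.linearCombination ℤ φ (cycB D C (P, x, y)) = ψ (EPt.mk x y hxy) := by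
    intro P x y hxy
    rw [h0 P x y (sw_equation.mp hxy.1), hψ x y hxy]
  refine ⟨ψ, ?_, key⟩
  intro v m s s' hs hs'
  have hv : Ab (VQ.res D.hL C.hL v) v := (ab_iff D.hL C.hL).mpr rfl
  obtain ⟨ψm, h1, h2⟩ := psi_aux63 B hφ hv (h.nice _) (h.ha _) (h.hb _) m
  have he : ψm = ψ := by
    ext t
    rcases t with _ | ⟨x, y, hxy⟩
    · exact (map_zero ψm).trans (map_zero ψ).symm
    · exact (h2 x y hxy).symm.trans (key _ x y hxy)
  have h3 := h1 (s - s') s' hs' (by rwa [sub_add_cancel])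
  rw [sub_add_cancel] at h3
  rw [h3, he, map_sub]

end Pool.Agent.Helper21.TZ
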