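import Mathlib
import Pool.Agent.Helper9.NS
import Pool.Agent.Helper21.TZ.Defs

/-!
# Block TZ-PT: the invariant point
`gp` is the generic point `(x, y)` of the constant curve, a point with coordinates in `Ω`. For `σ ∈ T.G`:
`mapC σ gp = gp + mapC ι e_σ` with a point `e_σ` over `L` (`T.translation`; in the second case `e_σ = (e, f)`, nonsingular by
`nonsing_of_disc` in TB/Final.lean, and `WeierstrassCurve.Affine.Point.add_of_X_ne`, `slope_of_X_ne`, `addX`, `addY`, `negAddY`, `negY` as in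
TO/RedNe.lean; `x ≠ ι e` as `x` is transcendental over `L`; rewrite `algebraMap F L T.a` etc. by `ha`, `IsScalarTower.algebraMap_apply`).
Let `Z = ∑_(σ ∈ T.G) mapC σ gp` (`Fintype.ofFinite`). Then `Z = N • gp + mapC ι (∑ e_σ)`, `N` the order of `T.G`, and `mapC τ Z = Z` for
`τ ∈ T.G` (`mapC_comp`, reindex the sum by `Equiv.mulLeft`). If `Z = 0` take `Z₀ = 0`. Otherwise `Z = mk X Y` with `X`, `Y` fixed by `T.G`, so
`X = f X₀`, `Y = f Y₀` by `hf`, and `Z₀ = mk X₀ Y₀`.
-/

set_option linter.unusedSectionVars false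

namespace Pool.Agent.Helper21.TZ

open VC VF Function Polynomial
open Pool.Agent.Helper21.TO Pool.Agent.Helper21.TB Pool.Agent.Helper15.GT
open Pool.Agent.Helper51.VB (Ell KPt BP rs OJ)
open Pool.Agent.Helper51.VN (OnE Harm)

universe u

variable {k : Type u} [Field k] [IsAlgClosed k] [CharZero k] {F L Ω : Type u} [Field F]
  [Algebra k F] [Field L] [Algebra k L] [Algebra F L] [IsScalarTower k F L] [Field Ω]
  [Algebra k Ω] [Algebra L Ω] [IsScalarTower k L Ω]

lemma ns_gp (T : Fibration k F L Ω) {a b : k} (ha : T.a = algebraMap k F a)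
    (hb : T.b = algebraMap k F b) :
    (sw (algebraMap k Ω a) (algebraMap k Ω b)).toAffine.Nonsingular T.x T.y := by
  have hΩ : CharZero Ω := charZero_of_injective_algebraMap (algebraMap k Ω).injective
  have e : ∀ c : k, algebraMap L Ω (algebraMap F L (algebraMap k F c)) = algebraMap k Ω c := by
    intro c
    rw [← IsScalarTower.algebraMap_apply k F L, ← IsScalarTower.algebraMap_apply k L Ω]
  apply nonsing_of_disc
  · intro h0
    apply T.disc
    rw [ha, hb]
    have h1 : algebraMap k Ω (4 * a ^ 3 + 27 * b ^ 2) = 0 := by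
      simp only [map_add, map_mul, map_pow, map_ofNat]
      exact h0
    have h2 := (map_eq_zero_iff _ (algebraMap k Ω).injective).mp h1
    rw [← map_pow, ← map_pow, ← map_ofNat (algebraMap k F) 4, ← map_ofNat (algebraMap k F) 27,
      ← map_mul, ← map_mul, ← map_add, h2, map_zero]
  · rw [← e a, ← e b, ← ha, ← hb]
    exact T.eqn

/-- The generic point of the constant curve. -/
noncomputable def gp (T : Fibration k F L Ω) {a b : k} (ha : T.a = algebraMap k F a)
    (hb : T.b = algebraMap k F b) : EK k Ω a b := EPt.mk T.x T.y (ns_gp T ha hb)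

lemma trans_gp (T : Fibration k F L Ω) {a b : k} (ha : T.a = algebraMap k F a)
    (hb : T.b = algebraMap k F b) (σ : Ω ≃ₐ[k] Ω) (hσ : σ ∈ T.G) :
    ∃ e : EK k L a b, mapC (σ : Ω →ₐ[k] Ω) a b (gp T ha hb) =
      gp T ha hb + mapC (IsScalarTower.toAlgHom k L Ω) a b e := by
  have hL : CharZero L := charZero_of_injective_algebraMap (algebraMap k L).injective
  have eL : ∀ c : k, algebraMap F L (algebraMap k F c) = algebraMap k L c := by
    intro c
    rw [← IsScalarTower.algebraMap_apply k F L]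
  rcases T.translation σ hσ with ⟨h1, h2⟩ | ⟨e, f, h0, h1, h2⟩
  · refine ⟨0, ?_⟩
    rw [map_zero, add_zero]
    have h3 : mapC (σ : Ω →ₐ[k] Ω) a b (gp T ha hb) =
        EPt.mk (σ T.x) (σ T.y) (by rw [h1, h2]; exact ns_gp T ha hb) := rfl
    rw [h3]
    simp only [h1, h2]
    rfl
  · rw [ha, hb, eL, eL] at h0
    have hd : 4 * (algebraMap k L a) ^ 3 + 27 * (algebraMap k L b) ^ 2 ≠ 0 := by
      intro hd0
      apply T.disc
      rw [ha, hb]
      have h3 : algebraMap k L (4 * a ^ 3 + 27 * b ^ 2) = 0 := by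
        simp only [map_add, map_mul, map_pow, map_ofNat]
        exact hd0
      have h4 := (map_eq_zero_iff _ (algebraMap k L).injective).mp h3
      rw [← map_pow, ← map_pow, ← map_ofNat (algebraMap k F) 4, ← map_ofNat (algebraMap k F) 27,
        ← map_mul, ← map_mul, ← map_add, h4, map_zero]
    have hns : (sw (algebraMap k L a) (algebraMap k L b)).toAffine.Nonsingular e f :=
      nonsing_of_disc hd h0
    refine ⟨EPt.mk e f hns, ?_⟩
    have hxe : T.x ≠ algebraMap L Ω e := by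
      intro h
      apply T.hx
      rw [h]
      exact isAlgebraic_algebraMap e
    have e1 : mapC (IsScalarTower.toAlgHom k L Ω) a b (EPt.mk e f hns) =
        EPt.mk (algebraMap L Ω e) (algebraMap L Ω f) (by
          have h3 := nonsingular_map (IsScalarTower.toAlgHom k L Ω) hns
          simpa [IsScalarTower.toAlgHom_apply, ← IsScalarTower.algebraMap_apply k L Ω] using h3) :=
      rfl
    have e2 : mapC (σ : Ω →ₐ[k] Ω) a b (gp T ha hb) = EPt.mk (σ T.x) (σ T.y) (by
        have h3 := nonsingular_map (σ : Ω →ₐ[k] Ω) (ns_gp T ha hb)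
        simpa using h3) := rfl
    rw [e1, e2]
    change _ = EPt.mk T.x T.y (ns_gp T ha hb) + _
    rw [WeierstrassCurve.Affine.Point.add_of_X_ne hxe, WeierstrassCurve.Affine.Point.some.injEq]
    rw [WeierstrassCurve.Affine.slope_of_X_ne hxe]
    simp only [WeierstrassCurve.Affine.addY, WeierstrassCurve.Affine.negAddY,
        WeierstrassCurve.Affine.negY, WeierstrassCurve.Affine.addX, zero_mul, add_zero, sub_zero]
    refine ⟨h1, ?_⟩
    rw [h2, h1]
    ring

theorem exists_Z (T : Fibration k F L Ω) {a b : k} (ha : T.a = algebraMap k F a)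
    (hb : T.b = algebraMap k F b) {F₀ : Type u} [Field F₀] [Algebra k F₀] (f : F₀ →ₐ[k] Ω)
    (hf : ∀ z : Ω, (∀ σ ∈ T.G, σ z = z) → z ∈ Set.range f) :
    ∃ (N : ℕ) (e : EK k L a b) (Z₀ : EK k F₀ a b), 0 < N ∧
      mapC f a b Z₀ = N • gp T ha hb + mapC (IsScalarTower.toAlgHom k L Ω) a b e := by
  classical
  haveI := T.finG
  letI : Fintype T.G := Fintype.ofFinite T.G
  choose e he using fun σ : T.G => trans_gp T ha hb σ.1 σ.2
  let Z : EK k Ω a b := ∑ σ : T.G, mapC ((σ.1 : Ω ≃ₐ[k] Ω) : Ω →ₐ[k] Ω) a b (gp T ha hb)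
  have hZ : Z = Fintype.card T.G • gp T ha hb +
      mapC (IsScalarTower.toAlgHom k L Ω) a b (∑ σ : T.G, e σ) := by
    change ∑ σ : T.G, mapC ((σ.1 : Ω ≃ₐ[k] Ω) : Ω →ₐ[k] Ω) a b (gp T ha hb) = _
    rw [Finset.sum_congr rfl fun σ _ => he σ, Finset.sum_add_distrib, Finset.sum_const,
      Finset.card_univ, map_sum]
  have hinv : ∀ τ ∈ T.G, mapC ((τ : Ω ≃ₐ[k] Ω) : Ω →ₐ[k] Ω) a b Z = Z := by
    intro τ hτ
    change mapC (τ : Ω →ₐ[k] Ω) a b (∑ σ : T.G, mapC ((σ.1 : Ω ≃ₐ[k] Ω) : Ω →ₐ[k] Ω) a b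
      (gp T ha hb)) = ∑ σ : T.G, mapC ((σ.1 : Ω ≃ₐ[k] Ω) : Ω →ₐ[k] Ω) a b (gp T ha hb)
    rw [map_sum, ← Equiv.sum_comp (Equiv.mulLeft (⟨τ, hτ⟩ : T.G))
      (fun σ : T.G => mapC ((σ.1 : Ω ≃ₐ[k] Ω) : Ω →ₐ[k] Ω) a b (gp T ha hb))]
    refine Finset.sum_congr rfl fun σ _ => ?_
    rw [mapC_comp]
    rfl
  suffices hs : ∃ Z₀ : EK k F₀ a b, mapC f a b Z₀ = Z by
    obtain ⟨Z₀, h0⟩ := hs
    exact ⟨Fintype.card T.G, ∑ σ : T.G, e σ, Z₀, Fintype.card_pos, h0.trans hZ⟩
  generalize Z = W at hinv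
  match W, hinv with
  | .zero, _ => exact ⟨0, rfl⟩
  | .some X Y h, hinv =>
    have h1 : ∀ τ ∈ T.G, τ X = X ∧ τ Y = Y := by
      intro τ hτ
      have h2 := hinv τ hτ
      have h3 : mapC (τ : Ω →ₐ[k] Ω) a b (WeierstrassCurve.Affine.Point.some X Y h) =
        EPt.mk (τ X) (τ Y) (by
        have h3 := nonsingular_map (τ : Ω →ₐ[k] Ω) h
        simpa using h3) := rfl
      rw [h3, WeierstrassCurve.Affine.Point.some.injEq] at h2
      exact h2
    obtain ⟨X₀, hX⟩ := hf X fun τ hτ => (h1 τ hτ).1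
    obtain ⟨Y₀, hY⟩ := hf Y fun τ hτ => (h1 τ hτ).2
    subst hX hY
    have hns : (sw (algebraMap k F₀ a) (algebraMap k F₀ b)).toAffine.Nonsingular X₀ Y₀ := by
      rw [sw_nonsingular] at h ⊢
      have hinj : Function.Injective f := f.toRingHom.injective
      obtain ⟨h4, h5⟩ := h
      rw [← f.commutes a, ← f.commutes b, ← map_pow, ← map_pow, ← map_mul, ← map_add,
        ← map_add] at h4
      refine ⟨hinj h4, ?_⟩
      rcases h5 with h5 | h5
      · left
        intro h6
        apply h5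
        rw [← f.commutes a]
        have h7 := congrArg f h6
        simpa [map_add, map_mul, map_pow, map_ofNat] using h7
      · right
        intro h6
        apply h5
        rw [← map_neg]
        exact congrArg f h6
    exact ⟨EPt.mk X₀ Y₀ hns, rfl⟩

end Pool.Agent.Helper21.TZ
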