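import Mathlib
import Pool.Agent.Helper9.NS
import Pool.Agent.Helper21.TZ.Pt
import Pool.Agent.Helper21.TZ.Psi
import Pool.Agent.Helper21.TZ.HrmPsi
import Pool.Agent.Helper21.TZ.Sec
import Pool.Agent.Helper21.TZ.Gen
import Pool.Agent.Helper21.TZ.Move2
import Pool.Agent.Helper21.TZ.Lred
import Pool.Agent.Helper21.TZ.Desc

/-!
# TZ: functionals whose transform does not depend on the point of the base

Such a functional is the sum of a functional from the base and a functional from the curve which is the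
image of the surface in the constant elliptic curve.
-/

set_option linter.unusedSectionVars false

namespace Pool.Agent.Helper21.TZ

open VC VF Function Polynomial
open Pool.Agent.Helper21.TO Pool.Agent.Helper21.TB Pool.Agent.Helper15.GT
open Pool.Agent.Helper51.VB (Ell KPt BP rs OJ)
open Pool.Agent.Helper51.VN (OnE Harm)

universe u

variable {k : Type u} [Field k] [IsAlgClosed k] [CharZero k] {F L Ω : Type u} [Field F]
  [Algebra k F] [Field L] [Algebra k L] [Algebra F L] [IsScalarTower k F L] [Field Ω]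
  [Algebra k Ω] [Algebra L Ω] [IsScalarTower k L Ω]

lemma vl_scale {F : Type u} [Field F] [Algebra k F] {w : RPl k F} {M : ℕ} {ξ η : Fin M → F}
    {b : Fin M → k} {c : F} (h : Vl w ξ b) (hc : ∀ i, ξ i = c * η i) : Vl w η b := by
  obtain ⟨hb, r, hr⟩ := h
  refine ⟨hb, r * c, fun i => ?_⟩
  rw [mul_assoc, ← hc]
  exact hr i

lemma vl_ppt {F : Type u} [Field F] [Algebra k F] {w : RPl k F} {M : ℕ} {ξ : Fin M → F}
    {I : Set (MvPolynomial (Fin M) k)} {s t : Fin M → k} (hs : s ≠ 0) (ht : t ≠ 0) (hss : Sat I s)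
    (htt : Sat I t) (h : Vl w ξ s) (h' : Vl w ξ t) : (ppt s hs hss : PPt k k I) = ppt t ht htt := by
  obtain ⟨c, -, hc⟩ := h'.unique h
  exact ppt_eq_iff.mpr ⟨c, fun i => (hc i).symm⟩

theorem fib_eq (T : Fibration k F L Ω) {a b : k} (ha : T.a = algebraMap k F a)
    (hb : T.b = algebraMap k F b) {F₀ : Type u} [Field F₀] [Algebra k F₀] (κ : F →ₐ[k] F₀)
    (f : F₀ →ₐ[k] Ω) (hκ : f.comp κ = T.j) (hfix : ∀ σ ∈ T.G, ∀ z, σ (f z) = f z)
    (hf : ∀ z : Ω, (∀ σ ∈ T.G, σ z = z) → z ∈ Set.range f) {M : ℕ} (ξ : Fin M → F₀) (hξ : ξ ≠ 0)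
    (hη : (fun i => f (ξ i)) ≠ 0) (c : Ω) (p q : Fin M → L[X]) (hc : c ≠ 0)
    (hg : ∀ i, c * f (ξ i) = aeval T.x (p i) + aeval T.x (q i) * T.y) {D : Ell k F}
    (hD : Cst D a b) (B : Fb D (mkCv T (fun i => f (ξ i)) hη c p q hc hg))
    {φ : (proj k (vanB k (fun i => f (ξ i)))).Pt → k}
    (hφ : Kills (proj k (vanB k (fun i => f (ξ i)))) φ) (T0 : Place k F)
    (h0 : ∀ r : Place k F × k × k, D.Nice r.1 → OnE (D.a₀ r.1) (D.b₀ r.1) r.2.1 r.2.2 →
      Finsupp.linearCombination ℤ φ (cycB D (mkCv T (fun i => f (ξ i)) hη c p q hc hg) r) =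
        Finsupp.linearCombination ℤ φ
          (cycB D (mkCv T (fun i => f (ξ i)) hη c p q hc hg) (T0, r.2.1, r.2.2))) :
    ∃ (μ : Place k F → k) (K1 : Type u) (_ : Field K1) (_ : Algebra k K1)
      (hK1 : IsFunctionField k K1) (j : K1 →ₐ[k] F₀) (l : Place k K1 → k),
      Harm T.hF μ ∧ Harm hK1 l ∧ ∀ (w : RPl k F₀) (s : Fin M → k) (hs : s ≠ 0)
        (hss : Sat (vanB k (fun i => f (ξ i))) s), Vl w ξ s →
        φ (ppt s hs hss) = μ (w.pl T.hF κ) + l (w.pl hK1 j) := by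
  obtain ⟨C, hC⟩ : ∃ C, C = mkCv T (fun i => f (ξ i)) hη c p q hc hg := ⟨_, rfl⟩
  have eL : ∀ c : k, algebraMap F L (algebraMap k F c) = algebraMap k L c := fun c =>
    (IsScalarTower.algebraMap_apply k F L c).symm
  have haC : (mkCv T (fun i => f (ξ i)) hη c p q hc hg).a = algebraMap k L a := by
    change algebraMap F L T.a = _
    rw [ha, eL]
  have hbC : (mkCv T (fun i => f (ξ i)) hη c p q hc hg).b = algebraMap k L b := by
    change algebraMap F L T.b = _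
    rw [hb, eL]
  obtain ⟨ψ, hψ1, hψ2⟩ := exists_psi0 B hD hφ T0 (fun P x y he => h0 (P, x, y) (hD.nice P) (by
    have h1 := hD.ha P
    have h2 := hD.hb P
    change y ^ 2 = x ^ 3 - 3 * D.a₀ P * x - 2 * D.b₀ P
    rw [he, ← h1, ← h2]
    ring))
  have hψH : ∀ (K' : Type u) [Field K'] [Algebra k K'] (hK' : IsFunctionField k K')
      (Z' : EK k K' a b), Harm hK' (fun w => ψ (redH hD.disc (rpl hK' w) Z')) :=
    fun K' _ _ hK' Z' => harm_psi0 B hD hφ T0 ψ (hψ2 T0) hK' Z'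
  obtain ⟨N, e, Z₀, hN, hZ⟩ := exists_Z T ha hb f hf
  have hN0 : (N : k) ≠ 0 := Nat.cast_ne_zero.mpr hN.ne'
  obtain ⟨K1, _, _, hK1, j, l, hl, hlw⟩ := exists_lred T.hF κ hD.disc Z₀ ψ hψH
  obtain ⟨s0, O', T1, hT1, hO⟩ := exists_secC (mkCv T (fun i => f (ξ i)) hη c p q hc hg) haC hbC
  obtain ⟨ι0, hι0⟩ : ∃ ι0 : L →ₐ[k] Ω, ι0 = IsScalarTower.toAlgHom k L Ω := ⟨_, rfl⟩
  obtain ⟨lam, hlam⟩ : ∃ lam : Place k L → k, lam = fun v =>
      φ ((mkCv T (fun i => f (ξ i)) hη c p q hc hg).S.eval T.hL O' v) - ψ s0 -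
        (N : k)⁻¹ * ψ (redH hD.disc (rpl T.hL v) e) := ⟨_, rfl⟩
  have hlamH : Harm T.hL lam := by
    rw [hlam]
    exact harm_sub (harm_sub (harm_kills hφ T.hL O') (harm_const T.hL _))
      (harm_smul (hψH L T.hL e) _)
  have hev : ev p q ι0 T.x T.y = fun i => c * f (ξ i) := by
    funext i
    rw [hg i, hι0]
    rfl
  have hev0 : ev (mkCv T (fun i => f (ξ i)) hη c p q hc hg).p
      (mkCv T (fun i => f (ξ i)) hη c p q hc hg).q ι0 T.x T.y ≠ 0 := by
    change ev p q ι0 T.x T.y ≠ 0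
    rw [hev]
    intro h
    apply hη
    funext i
    exact (mul_eq_zero.mp (congrFun h i)).resolve_left hc
  obtain ⟨G0, hG0, hgen⟩ := exists_gen (mkCv T (fun i => f (ξ i)) hη c p q hc hg) hD.disc haC hbC
    ι0 T.x T.y (ns_gp T ha hb) hev0 T1 hT1
  -- the values of `l`
  have hl' : ∀ w : RPl k Ω, l (w.pl hK1 (f.comp j)) =
      N • ψ (redH hD.disc w (gp T ha hb)) + ψ (redH hD.disc (rpl T.hL (w.pl T.hL ι0)) e) := by
    intro w
    rw [← pl_comap, ← hlw, ← redH_map, hZ, map_add, map_add, map_nsmul, map_nsmul, redH_map,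
      rpl_pl, hι0]
  have hmove : ∀ w : RPl k Ω, φ (evP (fun i => f (ξ i)) hη w) = lam (w.pl T.hL ι0) +
      (fun v => (N : k)⁻¹ * l v) (w.pl hK1 (f.comp j)) := by
    refine moving2 T.hL ι0 hK1 (f.comp j) (fun i => f (ξ i)) hη hφ hlamH (harm_smul hl _) G0 hG0 ?_
    intro w hw
    obtain ⟨hvT, m, X, Y, hs, hred, hvl⟩ := hgen w hw
    obtain ⟨hgood, hsp⟩ := hO _ hvT m
    have hv' : Vl w (fun i => f (ξ i)) (m.evt X Y) := vl_scale hvl (c := c) (fun i => by
      change ev p q ι0 T.x T.y i = _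
      rw [hev])
    have h1 := evP_eq hη hv' hv'.1 hv'.sat
    have h2 : m.sp (EPt.mk X Y hs) = Finsupp.single (evP (fun i => f (ξ i)) hη w) 1 := by
      rw [h1]
      change cy _ (m.evt X Y) = _
      unfold cy
      rw [dif_pos ⟨hv'.1, hv'.sat⟩]
      rfl
    have h3 := hψ1 _ m (EPt.mk X Y hs) s0 hv'.1 hgood
    have h6 : Finsupp.linearCombination ℤ φ (m.sp (EPt.mk X Y hs)) =
        φ (evP (fun i => f (ξ i)) hη w) := by
      rw [h2]
      exact (Finsupp.linearCombination_single ℤ 1 _).trans (one_smul ℤ _)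
    have h7 : Finsupp.linearCombination ℤ φ (m.sp s0) =
        φ ((mkCv T (fun i => f (ξ i)) hη c p q hc hg).S.eval T.hL O' (w.pl T.hL ι0)) := by
      rw [← hsp]
      exact (Finsupp.linearCombination_single ℤ 1 _).trans (one_smul ℤ _)
    have h8 : φ (evP (fun i => f (ξ i)) hη w) -
        φ ((mkCv T (fun i => f (ξ i)) hη c p q hc hg).S.eval T.hL O' (w.pl T.hL ι0)) =
        ψ (EPt.mk X Y hs) - ψ s0 := (congrArg₂ (· - ·) h6.symm h7.symm).trans h3
    have h4 : redH hD.disc w (gp T ha hb) = EPt.mk X Y hs := redH_eq hD.disc hred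
    change _ = lam (w.pl T.hL ι0) + (N : k)⁻¹ * l (w.pl hK1 (f.comp j))
    rw [hl', h4, hlam, nsmul_eq_mul]
    have h5 : φ (evP (fun i => f (ξ i)) hη w) =
        φ ((mkCv T (fun i => f (ξ i)) hη c p q hc hg).S.eval T.hL O' (w.pl T.hL ι0)) +
          (ψ (EPt.mk X Y hs) - ψ s0) := by
      rw [← h8]
      exact (add_sub_cancel _ _).symm
    rw [h5]
    field_simp
    ring
  -- the descent
  have hsat : ∀ (w : RPl k F₀) (s : Fin M → k), Vl w ξ s → Sat (vanB k (fun i => f (ξ i))) s := by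
    intro w s hs
    have h1 := hs.sat
    rwa [← van_hom f ξ] at h1
  obtain ⟨μ, hμ, hμ2⟩ := exists_desc T κ f hκ hfix hlamH
    (fun w => φ (ppt (exists_vl w ξ hξ).choose (exists_vl w ξ hξ).choose_spec.1
      (hsat w _ (exists_vl w ξ hξ).choose_spec)) - (N : k)⁻¹ * l (w.pl hK1 j)) (fun w => by
    have h1 := hmove w
    have h2 : Vl w (fun i => f (ξ i)) (exists_vl (w.comap f) ξ hξ).choose :=
      (exists_vl (w.comap f) ξ hξ).choose_spec.comap
    have h3 := evP_eq hη h2 (exists_vl (w.comap f) ξ hξ).choose_spec.1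
      (hsat (w.comap f) _ (exists_vl (w.comap f) ξ hξ).choose_spec)
    rw [h3] at h1
    rw [← hι0, pl_comap]
    exact eq_sub_of_add_eq h1.symm)
  refine ⟨μ, K1, inferInstance, inferInstance, hK1, j, fun v => (N : k)⁻¹ * l v, hμ,
    harm_smul hl _, ?_⟩
  intro w s hs hss hv
  have h1 := hμ2 w
  have h2 := vl_ppt hs (exists_vl w ξ hξ).choose_spec.1 hss
    (hsat w _ (exists_vl w ξ hξ).choose_spec) hv (exists_vl w ξ hξ).choose_spec
  rw [h2, ← h1]
  ring

end Pool.Agent.Helper21.TZ
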