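import Mathlib
import Pool.Agent.Helper9.NS
import Pool.Agent.Helper21.TZ.Defs

/-!
# Block TZ-TRF: the transfer
As `transferV` (TB/TransferB.lean; copy the private definitions and `alt_step4`). Base case of the induction: `z i = cyc (p i) - cyc (T0, (p i).2)`
for all `i`. Expand `(TM4 S Φ).alternatization z` by `MultilinearMap.map_add_univ` (for `AlternatingMap.toMultilinearMap`) with
`z i = -cyc (T0, (p i).2) + cyc (p i)`: it is the sum over `s : Finset (Fin n)` of the value at `s.piecewise (-cyc (T0, ..)) (cyc (p ..))`, i.e.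
`(-1) ^ s.card` times the value at `fun i => cyc (if i ∈ s then (T0, (p i).2) else p i)` (`MultilinearMap.map_piecewise_smul` with the scalar `-1`, or
`map_smul_univ`), which is `altL Φ (fun i => cyc (..))`; apply `hvan` to `oj_of_link h hΦ`. Step: `φ_lin (cyc p) - φ_lin (cyc (T0, p.2))` is the
value at `z` with `cyc p - cyc (T0, p.2)` in the slot `j`, zero by the induction hypothesis.
-/

set_option linter.unusedSectionVars false

namespace Pool.Agent.Helper21.TZ

open VC VF Function Polynomial
open Pool.Agent.Helper21.TO Pool.Agent.Helper21.TB Pool.Agent.Helper15.GT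
open Pool.Agent.Helper51.VB (Ell KPt BP rs OJ)
open Pool.Agent.Helper51.VN (OnE Harm)

universe u

variable {k : Type u} [Field k] [IsAlgClosed k] [CharZero k] {F : Type u} [Field F] [Algebra k F]
  {D : Ell k F} {S : Variety k} {cyc : Place k F × k × k → S.Cycles}

open Classical in
/-- The alternating sums of the functionals of class `OJ` over the replacements of the points of the base by
`T0` vanish at the nice points. -/
def VanT (D : Ell k F) (T0 : Place k F) (n : ℕ) : Prop :=
  ∀ Ψ : (Fin n → Place k F × k × k) → k, OJ D n Ψ → ∀ p : Fin n → Place k F × k × k,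
    (∀ i, D.Nice (p i).1 ∧ OnE (D.a₀ (p i).1) (D.b₀ (p i).1) (p i).2.1 (p i).2.2) →
    ∑ S : Finset (Fin n), (-1) ^ S.card *
      Ψ (fun i => if i ∈ S then (T0, (p i).2.1, (p i).2.2) else p i) = 0

/-- The cycle `a` is killed by all functionals on `S` whose transform does not depend on the point
of the base. -/
def FibralT (D : Ell k F) (S : Variety k) (cyc : Place k F × k × k → S.Cycles) (T0 : Place k F)
    (a : S.Cycles) : Prop :=
  ∀ φ : S.Pt → k, Kills S φ →
    (∀ p : Place k F × k × k, D.Nice p.1 → OnE (D.a₀ p.1) (D.b₀ p.1) p.2.1 p.2.2 →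
      Finsupp.linearCombination ℤ φ (cyc p) =
        Finsupp.linearCombination ℤ φ (cyc (T0, p.2.1, p.2.2))) →
    Finsupp.linearCombination ℤ φ a = 0

/-- The functional on exterior products as a multilinear map. -/
private noncomputable def TM6 (X : Variety k) {n : ℕ} (Φ : (X.pow n).Pt → k) :
    MultilinearMap ℤ (fun _ : Fin n => X.Cycles) k :=
  (Finsupp.linearCombination ℤ Φ).compMultilinearMap (extM X.Pt n)

private lemma alt_apply6 {n : ℕ} (Φ : (S.pow n).Pt → k) (z : Fin n → S.Cycles) :
    (TM6 S Φ).alternatization z = altL Φ z := by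
  rw [MultilinearMap.alternatization_apply]
  unfold altL
  refine Finset.sum_congr rfl fun σ _ => ?_
  rw [Units.smul_def]
  rfl

private lemma expand6 {M : Type*} [AddCommGroup M] {n : ℕ} (A : MultilinearMap ℤ (fun _ : Fin n => M) k) (c c0 : Fin n → M) :
    A (fun i => c i - c0 i) = ∑ s : Finset (Fin n), (-1) ^ s.card * A (fun i => if i ∈ s then c0 i else c i) := by
  classical
  have e : (fun i => c i - c0 i) = (fun i => -c0 i) + c := by
    funext i
    rw [Pi.add_apply]
    abel
  rw [e, MultilinearMap.map_add_univ]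
  refine Finset.sum_congr rfl fun s _ => ?_
  have e2 : s.piecewise (fun i => -c0 i) c =
      fun i => (if i ∈ s then (-1 : ℤ) else 1) • (if i ∈ s then c0 i else c i) := by
    funext i
    by_cases hi : i ∈ s
    · rw [Finset.piecewise_eq_of_mem _ _ _ hi, if_pos hi, if_pos hi, neg_smul, one_smul]
    · rw [Finset.piecewise_eq_of_notMem _ _ _ hi, if_neg hi, if_neg hi, one_smul]
  rw [e2, MultilinearMap.map_smul_univ]
  have e3 : (∏ i : Fin n, if i ∈ s then (-1 : ℤ) else 1) = (-1) ^ s.card := by
    rw [Finset.prod_ite_mem, Finset.univ_inter, Finset.prod_const]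
  rw [e3, zsmul_eq_mul]
  push_cast
  rfl

private lemma alt_step6 (h : LinkB D S cyc) {T0 : Place k F} {n : ℕ} (hvan : VanT D T0 n) {Φ : (S.pow n).Pt → k}
    (hΦ : Kills (S.pow n) Φ) (j : ℕ) :
    j ≤ n → ∀ z : Fin n → S.Cycles, (∀ i : Fin n, (i : ℕ) < j → FibralT D S cyc T0 (z i)) →
      (∀ i : Fin n, j ≤ (i : ℕ) → ∃ p : Place k F × k × k,
        (D.Nice p.1 ∧ OnE (D.a₀ p.1) (D.b₀ p.1) p.2.1 p.2.2) ∧ z i = cyc p - cyc (T0, p.2.1, p.2.2)) →
      (TM6 S Φ).alternatization z = 0 := by
  classical
  induction j with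
  | zero =>
    intro _ z _ hz
    choose p hp hzp using fun i => hz i (Nat.zero_le _)
    have e : z = fun i => cyc (p i) - cyc (T0, (p i).2.1, (p i).2.2) := funext hzp
    rw [e]
    have h1 := expand6 ((TM6 S Φ).alternatization).toMultilinearMap (fun i => cyc (p i))
      (fun i => cyc (T0, (p i).2.1, (p i).2.2))
    have h2 := hvan _ (oj_of_link h hΦ) p hp
    refine (show _ = _ from h1).trans ?_
    rw [← h2]
    refine Finset.sum_congr rfl fun s _ => ?_
    congr 1
    have h3 : (fun i => if i ∈ s then cyc (T0, (p i).2.1, (p i).2.2) else cyc (p i)) =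
        fun i => cyc (if i ∈ s then (T0, (p i).2.1, (p i).2.2) else p i) := by
      funext i
      by_cases hi : i ∈ s
      · rw [if_pos hi, if_pos hi]
      · rw [if_neg hi, if_neg hi]
    rw [h3]
    refine (alt_apply6 Φ _).trans ?_
    congr 1
  | succ j ih =>
    intro hj z hz0 hz1
    have hjn : j < n := hj
    set i : Fin n := ⟨j, hjn⟩ with hi
    let φ : S.Pt → k := fun x => (TM6 S Φ).alternatization (update z i (Finsupp.single x 1))
    have hlin : ∀ w : S.Cycles, Finsupp.linearCombination ℤ φ w =
        (TM6 S Φ).alternatization (update z i w) := by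
      intro w
      induction w using Finsupp.induction_linear with
      | zero => rw [map_zero, AlternatingMap.map_update_zero]
      | add a b ha hb => rw [map_add, ha, hb, AlternatingMap.map_update_add]
      | single x m =>
        rw [Finsupp.linearCombination_single]
        have e : (Finsupp.single x m : S.Cycles) = m • Finsupp.single x 1 := by
          rw [Finsupp.smul_single, smul_eq_mul, mul_one]
        rw [e, AlternatingMap.map_update_smul]
    have hkill : Kills S φ := by
      intro r hr
      rw [hlin, alt_apply6]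
      refine altL_nul h.constS hΦ _ i ?_
      rw [update_self]
      exact fun ψ hψ => hψ r hr
    have h3 := hz0 i (Nat.lt_succ_self j) φ hkill (fun p hp1 hp2 => by
      rw [← sub_eq_zero, ← map_sub, hlin]
      refine ih (by omega) _ (fun l hl => ?_) (fun l hl => ?_)
      · rw [update_of_ne (by
          intro h'
          rw [h'] at hl
          exact lt_irrefl _ hl)]
        exact hz0 l (by omega)
      · by_cases hl' : l = i
        · subst hl'
          exact ⟨p, ⟨hp1, hp2⟩, update_self _ _ _⟩
        · rw [update_of_ne hl']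
          refine hz1 l ?_
          have : (l : ℕ) ≠ j := fun h' => hl' (Fin.ext h')
          omega)
    rw [hlin, update_eq_self] at h3
    exact h3

theorem transferT (h : LinkB D S cyc) {T0 : Place k F} {n : ℕ} (hvan : VanT D T0 n)
    (a : Fin n → S.Cycles) (ha : ∀ i, FibralT D S cyc T0 (a i)) :
    ∃ m : ℕ, 0 < m ∧ m • ∑ σ : Equiv.Perm (Fin n), ((Equiv.Perm.sign σ : ℤˣ) : ℤ) •
      extProd (fun i => a (σ i)) ∈ (S.pow n).Rat := by
  refine separation (S.pow n) _ fun Φ hΦ => ?_
  have h1 := alt_step6 h hvan hΦ n le_rfl a (fun i _ => ha i)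
    (fun i hi => absurd i.2 (not_lt.2 hi))
  rw [alt_apply6] at h1
  rw [map_sum, ← h1]
  unfold altL
  refine Finset.sum_congr rfl fun σ _ => ?_
  rw [map_smul]

end Pool.Agent.Helper21.TZ
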