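import Mathlib
import Pool.Agent.Helper9.NS
import Pool.Agent.Helper21.TZ.Defs

/-!
# Block TZ-TWU: scaling the equation
`exists_const`: `FF.exists_const_of_dv_eq_zero` (see its use in Helper51/IZ/Main2.lean). `exists_scale`: `T'` has
`a = u ^ 4 a`, `b = u ^ 6 b`, `x = u ^ 2 x`, `y = u ^ 3 y` (`u` mapped to `L`, `Ω`), the same group, `r i = u ^ 2 r i`, `s i = u s i`. All axioms are
direct: `hx`: `Transcendental L (c * x)` for `c ≠ 0` in `L`; `gen`: `x = u⁻² (u ^ 2 x)` is in the field; `translation` with `u ^ 2 e`,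
`u ^ 3 f` (`σ` fixes `u` by `fixF`; `field_simp`: the denominator `u ^ 2 x - u ^ 2 e` is `u ^ 2 (x - e)`; division by zero is harmless as both sides scale);
`hr`: compare coefficients, or evaluate: `∏ (X - C (u ^ 2 r i))` for three factors expands to `X ^ 3 - u² e1 X ^ 2 + u⁴ e2 X - u⁶ e3` and `hr` gives the
elementary symmetric functions of the `r i` (`Polynomial.ext_iff` at 0, 1, 2).
-/

set_option linter.unusedSectionVars false

namespace Pool.Agent.Helper21.TZ

open VC VF Function Polynomial
open Pool.Agent.Helper21.TO Pool.Agent.Helper21.TB Pool.Agent.Helper15.GT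
open Pool.Agent.Helper51.VB (Ell KPt BP rs OJ)
open Pool.Agent.Helper51.VN (OnE Harm)

universe u

variable {k : Type u} [Field k] [IsAlgClosed k] [CharZero k] {F L Ω : Type u} [Field F]
  [Algebra k F] [Field L] [Algebra k L] [Algebra F L] [IsScalarTower k F L] [Field Ω]
  [Algebra k Ω] [Algebra L Ω] [IsScalarTower k L Ω]

theorem exists_const (hF : IsFunctionField k F) (z : F)
    (h : z ≠ 0 → ∀ P : Place k F, 0 ≤ ord P.ring z) : ∃ c : k, z = algebraMap k F c := by
  rcases eq_or_ne z 0 with h0 | h0
  · exact ⟨0, by rw [h0, map_zero]⟩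
  · obtain ⟨c, hc⟩ := FF.exists_const_of_dv_eq_zero hF (h h0)
    exact ⟨c, hc.symm⟩

theorem exists_scale (T : Fibration k F L Ω) {u : F} (hu : u ≠ 0) :
    ∃ T' : Fibration k F L Ω, T'.a = u ^ 4 * T.a ∧ T'.b = u ^ 6 * T.b ∧ T'.G = T.G := by
  obtain ⟨v, hv⟩ : ∃ v : L, v = algebraMap F L u := ⟨_, rfl⟩
  obtain ⟨w, hw⟩ : ∃ w : Ω, w = algebraMap L Ω v := ⟨_, rfl⟩
  have hv0 : v ≠ 0 := by
    rw [hv]
    exact (_root_.map_ne_zero _).mpr hu
  have hw0 : w ≠ 0 := by
    rw [hw]
    exact (_root_.map_ne_zero _).mpr hv0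
  have hinf : Infinite L := by
    have : Infinite k := IsAlgClosed.instInfinite
    exact Infinite.of_injective (algebraMap k L) (algebraMap k L).injective
  have hfix : ∀ σ ∈ T.G, σ w = w := by
    intro σ hσ
    rw [hw, hv]
    exact T.fixF σ hσ u
  have hw2 : w ^ 2 = algebraMap L Ω (v ^ 2) := by rw [hw, map_pow]
  have hw3 : w ^ 3 = algebraMap L Ω (v ^ 3) := by rw [hw, map_pow]
  let T' : Fibration k F L Ω :=
    { hF := T.hF
      hL := T.hL
      a := u ^ 4 * T.a
      b := u ^ 6 * T.b
      disc := by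
        have h : 4 * (u ^ 4 * T.a) ^ 3 + 27 * (u ^ 6 * T.b) ^ 2 = u ^ 12 * (4 * T.a ^ 3 + 27 * T.b ^ 2) := by
          ring
        rw [h]
        exact mul_ne_zero (pow_ne_zero _ hu) T.disc
      x := w ^ 2 * T.x
      y := w ^ 3 * T.y
      hx := by
        intro halg
        apply T.hx
        have h1 : T.x = algebraMap L Ω (v ^ 2)⁻¹ * (w ^ 2 * T.x) := by
          rw [map_inv₀, ← hw2, ← mul_assoc, inv_mul_cancel₀ (pow_ne_zero _ hw0), one_mul]
        rw [h1]
        exact (isAlgebraic_algebraMap _).mul halg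
      eqn := by
        have h := T.eqn
        rw [map_mul, map_mul, map_mul, map_mul, map_pow, map_pow, map_pow, map_pow, ← hv, ← hw]
        linear_combination w ^ 6 * h
      gen := by
        rw [eq_top_iff, ← T.gen, IntermediateField.adjoin_le_iff]
        have m1 : w ^ 2 * T.x ∈ IntermediateField.adjoin L {w ^ 2 * T.x, w ^ 3 * T.y} :=
          IntermediateField.subset_adjoin _ _ (Set.mem_insert _ _)
        have m2 : w ^ 3 * T.y ∈ IntermediateField.adjoin L {w ^ 2 * T.x, w ^ 3 * T.y} :=
          IntermediateField.subset_adjoin _ _ (Set.mem_insert_of_mem _ rfl)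
        rintro z (rfl | hz)
        · have h1 : T.x = algebraMap L Ω (v ^ 2)⁻¹ * (w ^ 2 * T.x) := by
            rw [map_inv₀, ← hw2, ← mul_assoc, inv_mul_cancel₀ (pow_ne_zero _ hw0), one_mul]
          rw [SetLike.mem_coe]
          have h2 := mul_mem ((IntermediateField.adjoin L {w ^ 2 * T.x, w ^ 3 * T.y}).algebraMap_mem (v ^ 2)⁻¹) m1
          rwa [← h1] at h2
        · rw [Set.mem_singleton_iff] at hz
          subst hz
          have h1 : T.y = algebraMap L Ω (v ^ 3)⁻¹ * (w ^ 3 * T.y) := by
            rw [map_inv₀, ← hw3, ← mul_assoc, inv_mul_cancel₀ (pow_ne_zero _ hw0), one_mul]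
          rw [SetLike.mem_coe]
          have h2 := mul_mem ((IntermediateField.adjoin L {w ^ 2 * T.x, w ^ 3 * T.y}).algebraMap_mem (v ^ 3)⁻¹) m2
          rwa [← h1] at h2
      G := T.G
      finG := T.finG
      stable := T.stable
      fixF := T.fixF
      fixed := T.fixed
      translation := by
        intro σ hσ
        have hσw := hfix σ hσ
        rcases T.translation σ hσ with ⟨h1, h2⟩ | ⟨e, f, h1, h2, h3⟩
        · left
          rw [map_mul, map_mul, map_pow, map_pow, hσw, h1, h2]
          exact ⟨rfl, rfl⟩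
        · right
          refine ⟨v ^ 2 * e, v ^ 3 * f, ?_, ?_, ?_⟩
          · rw [map_mul, map_mul, map_pow, map_pow, ← hv]
            linear_combination v ^ 6 * h1
          · rw [map_mul, map_mul, map_mul, map_pow, map_pow, map_pow, hσw, h2, ← hw]
            have e1 : w ^ 3 * T.y - w ^ 3 * algebraMap L Ω f = w ^ 3 * (T.y - algebraMap L Ω f) := by ring
            have e2 : w ^ 2 * T.x - w ^ 2 * algebraMap L Ω e = w ^ 2 * (T.x - algebraMap L Ω e) := by ring
            have e3 : w ^ 3 * (T.y - algebraMap L Ω f) / (w ^ 2 * (T.x - algebraMap L Ω e)) =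
                w * ((T.y - algebraMap L Ω f) / (T.x - algebraMap L Ω e)) := by
              rw [mul_div_mul_comm]
              congr 1
              field_simp
            rw [e1, e2, e3]
            ring
          · rw [map_mul, map_mul, map_mul, map_mul, map_pow, map_pow, map_pow, map_pow, hσw, h3, ← hw]
            have e1 : w ^ 3 * T.y - w ^ 3 * algebraMap L Ω f = w ^ 3 * (T.y - algebraMap L Ω f) := by ring
            have e2 : w ^ 2 * T.x - w ^ 2 * algebraMap L Ω e = w ^ 2 * (T.x - algebraMap L Ω e) := by ring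
            have e3 : w ^ 3 * (T.y - algebraMap L Ω f) / (w ^ 2 * (T.x - algebraMap L Ω e)) =
                w * ((T.y - algebraMap L Ω f) / (T.x - algebraMap L Ω e)) := by
              rw [mul_div_mul_comm]
              congr 1
              field_simp
            rw [e1, e2, e3]
            ring
      r := fun i => v ^ 2 * T.r i
      hr := by
        refine Polynomial.funext fun z => ?_
        have h := congrArg (Polynomial.eval (z / v ^ 2)) T.hr
        simp only [Fin.prod_univ_three, eval_add, eval_mul, eval_pow, eval_X, eval_C, eval_sub] at h ⊢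
        rw [map_mul, map_mul, map_pow, map_pow, ← hv]
        have hz : z = v ^ 2 * (z / v ^ 2) := by field_simp
        obtain ⟨t, ht⟩ : ∃ t, t = z / v ^ 2 := ⟨_, rfl⟩
        rw [← ht] at h hz
        rw [hz]
        linear_combination v ^ 6 * h
      s := fun i => v * T.s i
      hs := by
        intro i
        have h := T.hs i
        linear_combination v ^ 2 * h }
  exact ⟨T', rfl, rfl, rfl⟩

end Pool.Agent.Helper21.TZ
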