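import Mathlib
import Pool.Agent.Helper9.NS
import Pool.Agent.Helper51.IZ.Main2
import Pool.Agent.Helper21.TZ.FibEq
import Pool.Agent.Helper21.TZ.Trf
import Pool.Agent.Helper21.TZ.Twu

/-!
# TZ: Voisin's conjecture for genus one fibrations with trivial Jacobian fibration
-/

set_option linter.unusedSectionVars false

namespace Pool.Agent.Helper21.TZ

open VC VF Function Polynomial
open Pool.Agent.Helper21.TO Pool.Agent.Helper21.TB Pool.Agent.Helper15.GT
open Pool.Agent.Helper51.VB (Ell KPt BP rs OJ)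
open Pool.Agent.Helper51.VN (OnE Harm)

universe u

variable {k : Type u} [Field k] [IsAlgClosed k] [CharZero k] {F L Ω : Type u} [Field F]
  [Algebra k F] [Field L] [Algebra k L] [Algebra F L] [IsScalarTower k F L] [Field Ω]
  [Algebra k Ω] [Algebra L Ω] [IsScalarTower k L Ω]

/-- The functionals on the product of the base and a constant elliptic curve. -/
theorem vanT_cst {D : Ell k F} {a b : k} (hD : Cst D a b) {g n : ℕ} (hg : IsGenus k F g)
    (hn : g + 1 ≤ n) (T0 : Place k F) : VanT D T0 n := by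
  intro Ψ hΨ p hp
  have h1 := Helper51.IZ.iz_triv D hD.N0 (u := (1 : F)) one_ne_zero (fun P => by
    rw [hD.E0 P, FF.ord_one D.hL P]) hg hn hΨ (hD.nice T0) p hp
  have h2 : ∀ P : Place k F, rs P (1 : F) = 1 := fun P => Helper51.VB.rs_eq isRes_one
  simp only [h2, div_one, one_pow, one_mul] at h1
  exact h1

/-- The coefficients of the Jacobian are constant. -/
theorem voisin_cst (T : Fibration k F L Ω) {g : ℕ} (hg : IsGenus k F g) {a b : k}
    (ha : T.a = algebraMap k F a) (hb : T.b = algebraMap k F b) {F₀ : Type u} [Field F₀]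
    [Algebra k F₀] (κ : F →ₐ[k] F₀) (f : F₀ →ₐ[k] Ω) (hκ : f.comp κ = T.j)
    (hfix : ∀ σ ∈ T.G, ∀ z, σ (f z) = f z)
    (hf : ∀ z : Ω, (∀ σ ∈ T.G, σ z = z) → z ∈ Set.range f) {M : ℕ} (ξ : Fin M → F₀) (hξ : ξ ≠ 0)
    {n : ℕ} (hn : g + 1 ≤ n) (c : Fin n → (proj k (vanB k (fun i => f (ξ i)))).Cycles)
    (hc : ∀ i, ∀ (φ : (proj k (vanB k (fun i => f (ξ i)))).Pt → k) (μ : Place k F → k) (K1 : Type u)
      [Field K1] [Algebra k K1] (hK1 : IsFunctionField k K1) (j : K1 →ₐ[k] F₀) (l : Place k K1 → k),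
      Kills (proj k (vanB k (fun i => f (ξ i)))) φ → Harm T.hF μ → Harm hK1 l →
      (∀ (w : RPl k F₀) (s : Fin M → k) (hs : s ≠ 0) (hss : Sat (vanB k (fun i => f (ξ i))) s),
        Vl w ξ s → φ (ppt s hs hss) = μ (w.pl T.hF κ) + l (w.pl hK1 j)) →
      Finsupp.linearCombination ℤ φ (c i) = 0) :
    ∃ m : ℕ, 0 < m ∧ m • ∑ σ : Equiv.Perm (Fin n), ((Equiv.Perm.sign σ : ℤˣ) : ℤ) •
      extProd (fun i => c (σ i)) ∈ ((proj k (vanB k (fun i => f (ξ i)))).pow n).Rat := by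
  have hF0 : CharZero F := charZero_of_injective_algebraMap (algebraMap k F).injective
  have hΔ : 4 * a ^ 3 + 27 * b ^ 2 ≠ 0 := by
    intro h
    apply T.disc
    rw [ha, hb]
    have h1 := congrArg (algebraMap k F) h
    simp only [map_add, map_mul, map_pow, map_ofNat, map_zero] at h1
    exact h1
  obtain ⟨D, hD⟩ := exists_cst T.hF hΔ
  have hη : (fun i => f (ξ i)) ≠ 0 := by
    intro h0
    apply hξ
    funext i
    exact (map_eq_zero_iff f f.toRingHom.injective).mp (congrFun h0 i)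
  obtain ⟨d, p, q, hd, hgg⟩ := exists_num _ _ T.x T.y T.eqn T.gen (fun i => f (ξ i))
  have hDa : T.a = -3 * D.al := by
    rw [ha, hD.hal, ← map_ofNat (algebraMap k F) 3, ← map_neg, ← map_mul]
    congr 1
    ring
  have hDb : T.b = -2 * D.be := by
    rw [hb, hD.hbe, ← map_ofNat (algebraMap k F) 2, ← map_neg, ← map_mul]
    congr 1
    ring
  obtain ⟨B⟩ := exists_fb T _ hη (fun σ hσ i => hfix σ hσ _) d p q hd hgg D hDa hDb (fun h => by
    rw [hD.N0] at h
    omega)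
  obtain ⟨t, htr, -⟩ := id T.hF
  obtain ⟨T0, -⟩ := FF.exists_place (F := F) htr
  refine transferT (linkB B) (vanT_cst hD hg hn T0) c fun i φ hφ h0 => ?_
  obtain ⟨μ, K1, _, _, hK1, j, l, hμ, hl, h⟩ := fib_eq T ha hb κ f hκ hfix hf ξ hξ hη d p q hd hgg hD B
    hφ T0 h0
  exact hc i φ μ K1 hK1 j l hφ hμ hl h

theorem vpj_cst (T : Fibration k F L Ω) {g : ℕ} (hg : IsGenus k F g) {a b : k}
    (ha : T.a = algebraMap k F a) (hb : T.b = algebraMap k F b) {F₀ : Type u} [Field F₀]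
    [Algebra k F₀] (κ : F →ₐ[k] F₀) (f : F₀ →ₐ[k] Ω) (hκ : f.comp κ = T.j)
    (hfix : ∀ σ ∈ T.G, ∀ z, σ (f z) = f z)
    (hf : ∀ z : Ω, (∀ σ ∈ T.G, σ z = z) → z ∈ Set.range f) : VPJ k F₀ g := by
  intro M ξ hξ n hn b' hb'
  choose A hA hAb using hb'
  have hvan : vanB k (fun i => f (ξ i)) = van k ξ := van_hom f ξ
  have key := fun (c : Fin n → (proj k (vanB k (fun i => f (ξ i)))).Cycles) hc' =>
    voisin_cst T hg ha hb κ f hκ hfix hf ξ hξ (show g + 1 ≤ n from hn) c hc'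
  rw [hvan] at key
  refine key b' fun i φ μ K1 _ _ hK1 j l hφ hμ hl h => ?_
  have h1 : ∀ w : RPl k F₀, φ (evP ξ hξ w) = μ (w.pl T.hF κ) + l (w.pl hK1 j) := by
    intro w
    obtain ⟨s, hs, hss, hv, he⟩ := exists_evP ξ hξ w
    rw [he]
    exact h w s hs hss hv
  rw [hAb i, Finsupp.linearCombination_mapDomain]
  have h2 := harm_curve hμ _ ((hA i).2 F T.hF κ)
  have h3 := harm_curve hl _ ((hA i).2 K1 hK1 j)
  rw [Finsupp.linearCombination_mapDomain] at h2 h3
  have e : φ ∘ evP ξ hξ = (μ ∘ fun w => w.pl T.hF κ) + (l ∘ fun w => w.pl hK1 j) := by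
    funext w
    exact h1 w
  have h4 : ∀ (u v : RPl k F₀ → k) (x : RPl k F₀ →₀ ℤ), Finsupp.linearCombination ℤ (u + v) x =
      Finsupp.linearCombination ℤ u x + Finsupp.linearCombination ℤ v x := by
    intro u v x
    simp only [Finsupp.linearCombination_apply, Finsupp.sum, Pi.add_apply, smul_add,
      Finset.sum_add_distrib]
  rw [e, h4]
  have h5 : Finsupp.linearCombination ℤ (μ ∘ fun w : RPl k F₀ => w.pl T.hF κ) (A i) = 0 := h2
  have h6 : Finsupp.linearCombination ℤ (l ∘ fun w : RPl k F₀ => w.pl hK1 j) (A i) = 0 := h3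
  rw [h5, h6, add_zero]

/-- Voisin's property for the function field `F₀` of a surface with a genus one fibration whose
Jacobian fibration is trivial: the minimal divisor is the divisor of the function `u`. -/
theorem vpj_triv (T : Fibration k F L Ω) {g : ℕ} (hg : IsGenus k F g) {u : F} (hu : u ≠ 0)
    (h4 : ∀ P : Place k F, T.a ≠ 0 → 0 ≤ ord P.ring T.a + 4 * ord P.ring u)
    (h6 : ∀ P : Place k F, T.b ≠ 0 → 0 ≤ ord P.ring T.b + 6 * ord P.ring u)
    {F₀ : Type u} [Field F₀] [Algebra k F₀] (κ : F →ₐ[k] F₀) (f : F₀ →ₐ[k] Ω)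
    (hκ : f.comp κ = T.j) (hfix : ∀ σ ∈ T.G, ∀ z, σ (f z) = f z)
    (hf : ∀ z : Ω, (∀ σ ∈ T.G, σ z = z) → z ∈ Set.range f) : VPJ k F₀ g := by
  obtain ⟨T', ha, hb, hG⟩ := exists_scale T hu
  obtain ⟨a, ha'⟩ := exists_const T.hF (u ^ 4 * T.a) (fun h P => by
    have h1 : T.a ≠ 0 := right_ne_zero_of_mul h
    rw [FF.ord_mul T.hF P (pow_ne_zero 4 hu) h1, FF.ord_pow T.hF P hu]
    have := h4 P h1
    push_cast
    linarith)
  obtain ⟨b, hb'⟩ := exists_const T.hF (u ^ 6 * T.b) (fun h P => by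
    have h1 : T.b ≠ 0 := right_ne_zero_of_mul h
    rw [FF.ord_mul T.hF P (pow_ne_zero 6 hu) h1, FF.ord_pow T.hF P hu]
    have := h6 P h1
    push_cast
    linarith)
  exact vpj_cst T' hg (ha.trans ha') (hb.trans hb') κ f hκ (by rw [hG]; exact hfix)
    (by rw [hG]; exact hf)

end Pool.Agent.Helper21.TZ
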